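import Pool.Agent.H46.PF.Defs

/-!
# Module AVG: averaging over the translates of a lattice

`vol S = |det g| * ∫ 1_S (g y) dy` (`MeasureTheory.Measure.addHaar_preimage_linearMap` or
`Real.map_matrix_volume_pi_eq_smul_volume_pi`), and `∫ 1_S (g y) dy = ∫_{[0,1)^d} ∑_{n ∈ ℤ^d} 1_S (g (n + s)) ds`
(`(0,1]^d` or `[0,1)^d` is a fundamental domain of `ℤ^d`: e.g. `ZSpan.isAddFundamentalDomain` for the standard basis and
`MeasureTheory.IsAddFundamentalDomain.lintegral_eq_tsum`; or write the indicator of `ℝ^d` as a sum over the translates of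
the unit cube, a measurable partition). By hypothesis every finite partial sum of the inner sum is `≤ C0`.
-/

open Real Finset MeasureTheory

namespace Pool.Agent.H46.PF

/-- averaging over the integer translates -/
theorem avg_unit {d : ℕ} {S : Set (Fin d → ℝ)} (hS : MeasurableSet S) {C0 : ℝ}
    (hC : ∀ (t : Fin d → ℝ) (P : Finset (Fin d → ℤ)),
      (∀ x ∈ P, (fun j => (x j : ℝ)) + t ∈ S) → (P.card : ℝ) ≤ C0) :
    volume S ≤ ENNReal.ofReal C0 := by
  classical
  let fl : (Fin d → ℝ) → (Fin d → ℤ) := fun x i => ⌊x i⌋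
  have hfl : Measurable fl := measurable_pi_lambda _ fun i => (measurable_pi_apply i).floor
  let cube : Set (Fin d → ℝ) := fl ⁻¹' {0}
  have hcube : MeasurableSet cube := hfl (measurableSet_singleton 0)
  have hvol : volume cube = 1 := by
    have h1 : cube = Set.pi Set.univ fun _ : Fin d => Set.Ico (0 : ℝ) 1 := by
      ext x
      constructor
      · intro hx i _
        have h2 : fl x = 0 := hx
        have h3 : ⌊x i⌋ = 0 := congrFun h2 i
        rw [Int.floor_eq_zero_iff] at h3
        exact h3
      · intro hx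
        change fl x = 0
        funext i
        exact Int.floor_eq_zero_iff.2 (hx i (Set.mem_univ i))
    rw [h1, Real.volume_pi_Ico]
    simp
  let iv : (Fin d → ℤ) → (Fin d → ℝ) := fun n j => (n j : ℝ)
  let A : (Fin d → ℤ) → Set (Fin d → ℝ) := fun n => {s | s ∈ cube ∧ iv n + s ∈ S}
  have hadd : ∀ n : Fin d → ℤ, Measurable fun s : Fin d → ℝ => iv n + s := fun n =>
    measurable_const_add (iv n)
  have hA : ∀ n, MeasurableSet (A n) := fun n => hcube.inter (hadd n hS)
  -- decomposition
  have hpiece : ∀ n, volume (S ∩ fl ⁻¹' {n}) = volume (A n) := by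
    intro n
    have h1 : A n = (fun s => iv n + s) ⁻¹' (S ∩ fl ⁻¹' {n}) := by
      ext s
      constructor
      · rintro ⟨h2, h3⟩
        refine ⟨h3, ?_⟩
        change fl (iv n + s) = n
        funext i
        have h4 : ⌊s i⌋ = 0 := congrFun (show fl s = 0 from h2) i
        change ⌊(n i : ℝ) + s i⌋ = n i
        rw [Int.floor_intCast_add, h4, add_zero]
      · rintro ⟨h2, h3⟩
        refine ⟨?_, h2⟩
        change fl s = 0
        funext i
        have h4 : ⌊(n i : ℝ) + s i⌋ = n i := congrFun (show fl (iv n + s) = n from h3) i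
        rw [Int.floor_intCast_add] at h4
        change ⌊s i⌋ = 0
        omega
    rw [h1, measure_preimage_add]
  have hsum : volume S = ∑' n, volume (A n) := by
    have h1 : S = ⋃ n, (S ∩ fl ⁻¹' {n}) := by
      ext x
      simp
    calc volume S = volume (⋃ n, (S ∩ fl ⁻¹' {n})) := by rw [← h1]
      _ = ∑' n, volume (S ∩ fl ⁻¹' {n}) := by
          refine measure_iUnion ?_ fun n => hS.inter (hfl (measurableSet_singleton n))
          intro n m hnm
          refine Set.disjoint_left.2 ?_
          rintro x ⟨-, h2⟩ ⟨-, h3⟩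
          exact hnm ((show fl x = n from h2).symm.trans (show fl x = m from h3))
      _ = ∑' n, volume (A n) := by simp only [hpiece]
  have hint : ∑' n, volume (A n) = ∫⁻ s, ∑' n, (A n).indicator (fun _ => (1 : ENNReal)) s := by
    rw [lintegral_tsum fun n => (measurable_const.indicator (hA n)).aemeasurable]
    refine tsum_congr fun n => ?_
    rw [lintegral_indicator (hA n)]
    simp
  have hpt : ∀ s, ∑' n, (A n).indicator (fun _ => (1 : ENNReal)) s ≤
      cube.indicator (fun _ => ENNReal.ofReal C0) s := by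
    intro s
    by_cases hs : s ∈ cube
    · rw [Set.indicator_of_mem hs, ENNReal.tsum_eq_iSup_sum]
      refine iSup_le fun P => ?_
      have h1 : ∑ n ∈ P, (A n).indicator (fun _ => (1 : ENNReal)) s =
          ((P.filter fun n => s ∈ A n).card : ENNReal) := by
        rw [Finset.card_filter]
        push_cast
        refine Finset.sum_congr rfl fun n _ => ?_
        by_cases hn : s ∈ A n
        · rw [Set.indicator_of_mem hn, if_pos hn]
        · rw [Set.indicator_of_notMem hn, if_neg hn]
      rw [h1]
      have h2 := hC s (P.filter fun n => s ∈ A n) (fun x hx => ((Finset.mem_filter.1 hx).2).2)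
      have h3 : ((P.filter fun n => s ∈ A n).card : ENNReal) =
          ENNReal.ofReal ((P.filter fun n => s ∈ A n).card : ℝ) := by
        rw [ENNReal.ofReal_natCast]
      rw [h3]
      exact ENNReal.ofReal_le_ofReal h2
    · rw [Set.indicator_of_notMem hs]
      have h1 : ∀ n, (A n).indicator (fun _ => (1 : ENNReal)) s = 0 := fun n =>
        Set.indicator_of_notMem (fun h => hs h.1) _
      simp [h1]
  rw [hsum, hint]
  refine (lintegral_mono hpt).trans ?_
  rw [lintegral_indicator hcube, lintegral_const, Measure.restrict_apply_univ, hvol, mul_one]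

theorem avg {d : ℕ} (g : Matrix (Fin d) (Fin d) ℝ) (hg : g.det ≠ 0) {S : Set (Fin d → ℝ)}
    (hS : MeasurableSet S) {C0 : ℝ}
    (hC : ∀ (t : Fin d → ℝ) (P : Finset (Fin d → ℤ)),
      (∀ x ∈ P, g.mulVec (fun j => (x j : ℝ)) + t ∈ S) → (P.card : ℝ) ≤ C0) :
    (volume S).toReal ≤ C0 * |g.det| := by
  have hC0 : 0 ≤ C0 := by simpa using hC 0 ∅ (by simp)
  have hmeas : Measurable (Matrix.toLin' g) := (Matrix.toLin' g).continuous_of_finiteDimensional.measurable
  have h1 := Real.map_matrix_volume_pi_eq_smul_volume_pi hg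
  have h2 : volume ((Matrix.toLin' g) ⁻¹' S) = ENNReal.ofReal |(g.det)⁻¹| * volume S := by
    rw [← Measure.map_apply hmeas hS, h1]
    rfl
  have h3 : volume ((Matrix.toLin' g) ⁻¹' S) ≤ ENNReal.ofReal C0 := by
    refine avg_unit (hmeas hS) fun t P hP => hC (g.mulVec t) P fun x hx => ?_
    have h4 : Matrix.toLin' g ((fun j => (x j : ℝ)) + t) ∈ S := hP x hx
    rw [map_add, Matrix.toLin'_apply, Matrix.toLin'_apply] at h4
    exact h4
  rw [h2] at h3
  have hdet : 0 < |g.det| := abs_pos.2 hg
  have h5 : volume S ≤ ENNReal.ofReal (C0 * |g.det|) := by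
    have h6 : ENNReal.ofReal |g.det| * (ENNReal.ofReal |(g.det)⁻¹| * volume S) = volume S := by
      rw [← mul_assoc, ← ENNReal.ofReal_mul (abs_nonneg _), abs_inv, mul_inv_cancel₀ hdet.ne',
        ENNReal.ofReal_one, one_mul]
    rw [← h6, mul_comm C0, ENNReal.ofReal_mul (abs_nonneg _)]
    exact mul_le_mul_right h3 _
  exact ENNReal.toReal_le_of_le_ofReal (by positivity) h5

end Pool.Agent.H46.PF
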