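import Pool.Agent.H46.PF.LP

/-!
# Counting bound from the LP inequality
-/

open Real Finset
open scoped ComplexConjugate

namespace Pool.Agent.H46.PF

lemma kap_one_nonneg {r : ℝ} (hr : 0 ≤ r) (L : ℕ) : 0 ≤ kap r L 1 := by
  unfold kap
  refine Finset.sum_nonneg fun j _ => ?_
  rw [one_pow, Complex.one_re, mul_one]
  positivity

theorem card_le {ι : Type*} [Fintype ι] [DecidableEq ι] {P : Type*} [Fintype P] (z : P → ι → ℂ)
    (hz : ∀ p i, ‖z p i‖ = 1) {r : ℝ} (hr : 0 ≤ r) (L : ℕ) (B : Finset (ι → ℤ)) (v : (ι → ℤ) → ℝ)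
    (hv : ∀ k, 0 ≤ v k) (hv0 : ∃ k ∈ B, v k ≠ 0) {Λ : ℝ} (hΛ : 0 ≤ Λ)
    (hM : ∀ n ∈ B, ∑ k ∈ B, mw r L (n - k) * v k = Λ * v n)
    (hoff : ∀ p q, p ≠ q → ∑ i, kap r L (z p i * conj (z q i)) ≤ Λ - 1) :
    (Fintype.card P : ℝ) ≤ (Fintype.card ι * kap r L 1 + 1) * B.card := by
  classical
  set V := ∑ k ∈ B, v k ^ 2 with hV
  have hVpos : 0 < V := by
    obtain ⟨k, hk, hk0⟩ := hv0
    refine Finset.sum_pos' (fun i _ => sq_nonneg _) ⟨k, hk, by positivity⟩
  have h1 := lp_bound z hz hr L B v hv (Λ := Λ) (lam := Λ - 1) (by linarith) hM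
  have hk1 : 0 ≤ kap r L 1 := kap_one_nonneg hr L
  set D := ((Fintype.card ι : ℝ) * kap r L 1 + 1) with hD
  have hD0 : 0 ≤ D := by positivity
  -- bound of the double sum
  have h2 : ∀ p q : P, (∑ i, kap r L (z p i * conj (z q i)) - (Λ - 1)) *
        ‖∑ k ∈ B, (v k : ℂ) * X (fun i => z p i * conj (z q i)) k‖ ^ 2
      ≤ if p = q then D * (B.card * V) else 0 := by
    intro p q
    by_cases hpq : p = q
    · subst hpq
      rw [if_pos rfl]
      have e1 : ∀ i, z p i * conj (z p i) = 1 := by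
        intro i
        rw [Complex.mul_conj, Complex.normSq_eq_norm_sq, hz]
        norm_num
      have e2 : (fun i => z p i * conj (z p i)) = fun _ => (1 : ℂ) := funext e1
      have e3 : ∀ k : ι → ℤ, X (fun _ : ι => (1 : ℂ)) k = 1 := by
        intro k
        simp [X]
      have e4 : ∑ i, kap r L (z p i * conj (z p i)) = Fintype.card ι * kap r L 1 := by
        simp only [e1, Finset.sum_const, Finset.card_univ, nsmul_eq_mul]
      rw [e4, e2]
      simp only [e3, mul_one]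
      have e5 : ‖∑ k ∈ B, (v k : ℂ)‖ ^ 2 = (∑ k ∈ B, v k) ^ 2 := by
        rw [← Complex.ofReal_sum, Complex.norm_real, Real.norm_eq_abs, sq_abs]
      rw [e5]
      have e6 : (∑ k ∈ B, v k) ^ 2 ≤ B.card * V := sq_sum_le_card_mul_sum_sq
      calc ((Fintype.card ι : ℝ) * kap r L 1 - (Λ - 1)) * (∑ k ∈ B, v k) ^ 2
          ≤ D * (∑ k ∈ B, v k) ^ 2 := by
            refine mul_le_mul_of_nonneg_right ?_ (sq_nonneg _)
            rw [hD]; linarith
        _ ≤ D * (B.card * V) := by gcongr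
    · rw [if_neg hpq]
      exact mul_nonpos_of_nonpos_of_nonneg (by linarith [hoff p q hpq]) (sq_nonneg _)
  have h3 : (Λ - (Λ - 1)) * (Fintype.card P : ℝ) ^ 2 * V ≤ Fintype.card P * (D * (B.card * V)) := by
    refine h1.trans ?_
    refine (Finset.sum_le_sum fun p _ => Finset.sum_le_sum fun q _ => h2 p q).trans ?_
    refine le_of_eq ?_
    simp only [Finset.sum_ite_eq, Finset.mem_univ, if_true, Finset.sum_const, Finset.card_univ,
      nsmul_eq_mul]
  rcases Nat.eq_zero_or_pos (Fintype.card P) with h0 | h0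
  · rw [h0]
    push_cast
    positivity
  · have hc : (0 : ℝ) < Fintype.card P := by exact_mod_cast h0
    have h4 : (Fintype.card P * V) * (Fintype.card P : ℝ) ≤ (Fintype.card P * V) * (D * B.card) := by
      nlinarith [h3]
    exact le_of_mul_le_mul_left h4 (by positivity)

end Pool.Agent.H46.PF
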