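import Pool.Agent.H46.PF.Defs

/-!
# Module LOG: the series of `log k / k^2`

It is `0.93755`. For `k > N ≥ 2`: `log k / k^2 ≤ (log (k-1) + 1)/(k-1) - (log k + 1)/k` (the right side is
`∫_{k-1}^k log x / x^2 dx` and `log x / x^2` decreases for `x ≥ 2`; it can also be proved directly from
`log k ≤ log (k-1) + 1/(k-1)` etc.), so the tail after `N` is at most `(log N + 1)/N`. `N = 24` is enough (the
error is about `log N / (2 N^2) = 0.0028`). Express the logs of the integers `≤ 24` by the logs of the primes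
`2, 3, 5, 7, 11, 13, 17, 19, 23`; upper bounds for these: `Real.log_two_lt_d9` and e.g. `log x ≤ c` from `x ≤ exp c`
and partial sums of the exponential series, or `log (a/b) ≤ ...` with `Real.log_le_sub_one_of_pos`-type bounds for numbers
close to 1 (such as `3^8/2^(12) ...`). A total error of `0.0015` in the weighted sum is allowed.
-/

open Real Finset

namespace Pool.Agent.H46.PF

/-- the bound for the tail -/
noncomputable def logTail (x : ℝ) : ℝ := (log x + 1) / x

theorem logTail_nonneg {x : ℝ} (hx : 1 ≤ x) : 0 ≤ logTail x :=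
  div_nonneg (by have := log_nonneg hx; linarith) (by linarith)

theorem log_step_aux {x : ℝ} (hx : 16 ≤ x) : log (x + 1) / (x + 1) ^ 2 ≤ logTail x - logTail (x + 1) := by
  have hx0 : 0 < x := by linarith
  have hx1 : 0 < x + 1 := by linarith
  -- `log (x+1) ≥ 2`
  have hl2 : 2 ≤ log (x + 1) := by
    have h1 : log 16 ≤ log (x + 1) := log_le_log (by norm_num) (by linarith)
    have h2 : log 16 = 4 * log 2 := by
      have : (16 : ℝ) = 2 ^ 4 := by norm_num
      rw [this, Real.log_pow]
      norm_num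
    have h3 := Real.log_two_gt_d9
    linarith
  have hle : log (x + 1) ≤ log x + 1 / x := by
    have h1 : log ((x + 1) / x) ≤ (x + 1) / x - 1 := log_le_sub_one_of_pos (by positivity)
    rw [log_div hx1.ne' hx0.ne'] at h1
    have h2 : (x + 1) / x - 1 = 1 / x := by field_simp; ring
    linarith
  obtain ⟨L, hL⟩ : ∃ L, log (x + 1) = L := ⟨_, rfl⟩
  obtain ⟨l, hl⟩ : ∃ l, log x = l := ⟨_, rfl⟩
  unfold logTail
  rw [hL] at hl2 hle ⊢
  rw [hl] at hle ⊢
  have h3 : (L - 1 / x + 1) / x ≤ (l + 1) / x := by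
    apply div_le_div_of_nonneg_right _ hx0.le
    linarith
  refine le_trans ?_ (sub_le_sub_right h3 _)
  have h4 : (L - 1 / x + 1) / x - (L + 1) / (x + 1) - L / (x + 1) ^ 2 =
      (L * x - (x + 1)) / (x ^ 2 * (x + 1) ^ 2) := by
    field_simp
    ring
  have h5 : 0 ≤ (L * x - (x + 1)) / (x ^ 2 * (x + 1) ^ 2) := by
    apply div_nonneg _ (by positivity)
    nlinarith
  linarith

theorem log_le_add {x y : ℝ} (hx : 0 < x) (hy : 0 < y) : log x ≤ log y + (x / y - 1) := by
  have h1 : log (x / y) ≤ x / y - 1 := log_le_sub_one_of_pos (by positivity)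
  rw [log_div hx.ne' hy.ne'] at h1
  linarith

theorem log_three_le : log 3 ≤ 1.098621 := by
  have h := log_le_add (x := 3 ^ 12) (y := 2 ^ 19) (by norm_num) (by norm_num)
  rw [Real.log_pow, Real.log_pow] at h
  have h2 := Real.log_two_lt_d9
  norm_num at h h2 ⊢
  linarith

theorem log_five_le : log 5 ≤ 1.609532 := by
  have h := log_le_add (x := 5 ^ 3) (y := 2 ^ 7) (by norm_num) (by norm_num)
  rw [Real.log_pow, Real.log_pow] at h
  have h2 := Real.log_two_lt_d9
  norm_num at h h2 ⊢
  linarith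

theorem log_seven_le : log 7 ≤ 1.946022 := by
  have h := log_le_add (x := 7 ^ 2) (y := 2 ^ 4 * 3) (by norm_num) (by norm_num)
  rw [Real.log_pow, Real.log_mul (by norm_num) (by norm_num), Real.log_pow] at h
  have h2 := Real.log_two_lt_d9
  have h3 := log_three_le
  norm_num at h h2 h3 ⊢
  linarith

theorem log_eleven_le : log 11 ≤ 2.397965 := by
  have h := log_le_add (x := 11 ^ 2) (y := 2 ^ 3 * 3 * 5) (by norm_num) (by norm_num)
  rw [Real.log_pow, Real.log_mul (by norm_num) (by norm_num),
    Real.log_mul (by norm_num) (by norm_num), Real.log_pow] at h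
  have h2 := Real.log_two_lt_d9
  have h3 := log_three_le
  have h5 := log_five_le
  norm_num at h h2 h3 h5 ⊢
  linarith

theorem log_thirteen_le : log 13 ≤ 2.56502 := by
  have h := log_le_add (x := 13 ^ 2) (y := 2 ^ 3 * 3 * 7) (by norm_num) (by norm_num)
  rw [Real.log_pow, Real.log_mul (by norm_num) (by norm_num),
    Real.log_mul (by norm_num) (by norm_num), Real.log_pow] at h
  have h2 := Real.log_two_lt_d9
  have h3 := log_three_le
  have h5 := log_seven_le
  norm_num at h h2 h3 h5 ⊢
  linarith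

theorem log_seventeen_le : log 17 ≤ 2.833226 := by
  have h := log_le_add (x := 17 ^ 2) (y := 2 ^ 5 * 3 ^ 2) (by norm_num) (by norm_num)
  rw [Real.log_pow, Real.log_mul (by norm_num) (by norm_num), Real.log_pow, Real.log_pow] at h
  have h2 := Real.log_two_lt_d9
  have h3 := log_three_le
  norm_num at h h2 h3 ⊢
  linarith

theorem log_nineteen_le : log 19 ≤ 2.944498 := by
  have h := log_le_add (x := 19 ^ 2) (y := 2 ^ 3 * 3 ^ 2 * 5) (by norm_num) (by norm_num)
  rw [Real.log_pow, Real.log_mul (by norm_num) (by norm_num),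
    Real.log_mul (by norm_num) (by norm_num), Real.log_pow, Real.log_pow] at h
  have h2 := Real.log_two_lt_d9
  have h3 := log_three_le
  have h5 := log_five_le
  norm_num at h h2 h3 h5 ⊢
  linarith

theorem log_twentythree_le : log 23 ≤ 3.135536 := by
  have h := log_le_add (x := 23 ^ 2) (y := 2 ^ 4 * 3 * 11) (by norm_num) (by norm_num)
  rw [Real.log_pow, Real.log_mul (by norm_num) (by norm_num),
    Real.log_mul (by norm_num) (by norm_num), Real.log_pow] at h
  have h2 := Real.log_two_lt_d9
  have h3 := log_three_le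
  have h5 := log_eleven_le
  norm_num at h h2 h3 h5 ⊢
  linarith

theorem head_le : ∑ k ∈ Finset.range 24, log ((k : ℝ) + 1) / ((k : ℝ) + 1) ^ 2 + logTail 24
    ≤ 942 / 1000 := by
  have e4 : log 4 = 2 * log 2 := by
    rw [show (4 : ℝ) = 2 ^ 2 by norm_num, Real.log_pow]; norm_num
  have e8 : log 8 = 3 * log 2 := by
    rw [show (8 : ℝ) = 2 ^ 3 by norm_num, Real.log_pow]; norm_num
  have e16 : log 16 = 4 * log 2 := by
    rw [show (16 : ℝ) = 2 ^ 4 by norm_num, Real.log_pow]; norm_num
  have e9 : log 9 = 2 * log 3 := by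
    rw [show (9 : ℝ) = 3 ^ 2 by norm_num, Real.log_pow]; norm_num
  have e6 : log 6 = log 2 + log 3 := by
    rw [show (6 : ℝ) = 2 * 3 by norm_num, Real.log_mul (by norm_num) (by norm_num)]
  have e10 : log 10 = log 2 + log 5 := by
    rw [show (10 : ℝ) = 2 * 5 by norm_num, Real.log_mul (by norm_num) (by norm_num)]
  have e12 : log 12 = 2 * log 2 + log 3 := by
    rw [show (12 : ℝ) = 4 * 3 by norm_num, Real.log_mul (by norm_num) (by norm_num), e4]
  have e14 : log 14 = log 2 + log 7 := by
    rw [show (14 : ℝ) = 2 * 7 by norm_num, Real.log_mul (by norm_num) (by norm_num)]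
  have e15 : log 15 = log 3 + log 5 := by
    rw [show (15 : ℝ) = 3 * 5 by norm_num, Real.log_mul (by norm_num) (by norm_num)]
  have e18 : log 18 = log 2 + 2 * log 3 := by
    rw [show (18 : ℝ) = 2 * 9 by norm_num, Real.log_mul (by norm_num) (by norm_num), e9]
  have e20 : log 20 = 2 * log 2 + log 5 := by
    rw [show (20 : ℝ) = 4 * 5 by norm_num, Real.log_mul (by norm_num) (by norm_num), e4]
  have e21 : log 21 = log 3 + log 7 := by
    rw [show (21 : ℝ) = 3 * 7 by norm_num, Real.log_mul (by norm_num) (by norm_num)]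
  have e22 : log 22 = log 2 + log 11 := by
    rw [show (22 : ℝ) = 2 * 11 by norm_num, Real.log_mul (by norm_num) (by norm_num)]
  have e24 : log 24 = 3 * log 2 + log 3 := by
    rw [show (24 : ℝ) = 8 * 3 by norm_num, Real.log_mul (by norm_num) (by norm_num), e8]
  have h2 := Real.log_two_lt_d9
  have h3 := log_three_le
  have h5 := log_five_le
  have h7 := log_seven_le
  have h11 := log_eleven_le
  have h13 := log_thirteen_le
  have h17 := log_seventeen_le
  have h19 := log_nineteen_le
  have h23 := log_twentythree_le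
  simp only [Finset.sum_range_succ, Finset.sum_range_zero, logTail]
  norm_num [e4, e6, e8, e9, e10, e12, e14, e15, e16, e18, e20, e21, e22, e24]
  norm_num at h2 h3 h5 h7 h11 h13 h17 h19 h23
  linarith

theorem partial_le (n : ℕ) :
    ∑ k ∈ Finset.range (24 + n), log ((k : ℝ) + 1) / ((k : ℝ) + 1) ^ 2 + logTail ((24 + n : ℕ) : ℝ)
      ≤ 942 / 1000 := by
  induction n with
  | zero => simpa using head_le
  | succ n ih =>
    rw [← Nat.add_assoc, Finset.sum_range_succ]
    have h := log_step_aux (x := ((24 + n : ℕ) : ℝ)) (by push_cast; linarith [Nat.cast_nonneg (α := ℝ) n])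
    have e : (((24 + n + 1 : ℕ)) : ℝ) = ((24 + n : ℕ) : ℝ) + 1 := by push_cast; ring
    rw [e]
    linarith

theorem term_nonneg (k : ℕ) : 0 ≤ log ((k : ℝ) + 1) / ((k : ℝ) + 1) ^ 2 :=
  div_nonneg (log_nonneg (by linarith [Nat.cast_nonneg (α := ℝ) k])) (by positivity)

theorem sum_range_le (n : ℕ) :
    ∑ k ∈ Finset.range n, log ((k : ℝ) + 1) / ((k : ℝ) + 1) ^ 2 ≤ 942 / 1000 := by
  have h1 : ∑ k ∈ Finset.range n, log ((k : ℝ) + 1) / ((k : ℝ) + 1) ^ 2 ≤
      ∑ k ∈ Finset.range (24 + n), log ((k : ℝ) + 1) / ((k : ℝ) + 1) ^ 2 :=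
    Finset.sum_le_sum_of_subset_of_nonneg (Finset.range_subset_range.2 (by omega))
      (fun k _ _ => term_nonneg k)
  have h2 := partial_le n
  have h3 : 0 ≤ logTail ((24 + n : ℕ) : ℝ) :=
    logTail_nonneg (by push_cast; linarith [Nat.cast_nonneg (α := ℝ) n])
  linarith

theorem summable_log : Summable (fun k : ℕ => log ((k : ℝ) + 1) / ((k : ℝ) + 1) ^ 2) :=
  summable_of_sum_range_le term_nonneg sum_range_le

theorem logsum_le : ∑' k : ℕ, log ((k : ℝ) + 1) / ((k : ℝ) + 1) ^ 2 ≤ 942 / 1000 :=
  Real.tsum_le_of_sum_range_le term_nonneg sum_range_le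

end Pool.Agent.H46.PF
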