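import Pool.Agent.H46.PF.Euler
import Pool.Agent.H46.PF.LogSum

/-!
# Module NIN: the numerical inequality

True values: left `0.20334`, right `0.20588` (with `ζ(3) = 1.20206`, `∑ log k/k^2 = 0.93755`); with the bounds
`zeta3_ge`, `logsum_le` the right side is still `≥ 0.2051`. Use `Real.pi_gt_d6`, `Real.pi_lt_d6` (or d20), upper bounds
`log 5 ≤ 1.60944`, `log (1 + π^2/75) ≤ log 1.1315948 ≤ 0.12363`, `log (7.7/(2π)) ≤ 0.20335` (e.g. from
`log x ≤ c ↔ x ≤ exp c` and lower bounds of `exp c` by partial sums, `Real.sum_le_exp_of_nonneg`;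
`log 5 = 2 log 2 + log (5/4)`).
-/

open Real Finset

namespace Pool.Agent.H46.PF

lemma exp_ge {x : ℝ} (hx : 0 ≤ x) : 1 + x + x ^ 2 / 2 + x ^ 3 / 6 + x ^ 4 / 24 + x ^ 5 / 120 ≤ exp x := by
  have h := Real.sum_le_exp_of_nonneg hx 6
  simp only [Finset.sum_range_succ, Finset.sum_range_zero, Nat.factorial] at h
  norm_num at h
  linarith

lemma log_le_of {x c : ℝ} (hx : 0 < x) (hc : 0 ≤ c)
    (h : x ≤ 1 + c + c ^ 2 / 2 + c ^ 3 / 6 + c ^ 4 / 24 + c ^ 5 / 120) : log x ≤ c :=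
  (Real.log_le_iff_le_exp hx).2 (h.trans (exp_ge hc))

lemma log5_le : log 5 ≤ 1.60945 := by
  have h1 : (5 : ℝ) = 2 ^ 2 * (5 / 4) := by norm_num
  rw [h1, Real.log_mul (by norm_num) (by norm_num), Real.log_pow]
  have h2 := Real.log_two_lt_d9
  have h3 : log (5 / 4) ≤ 0.22315 := log_le_of (by norm_num) (by norm_num) (by norm_num)
  push_cast
  linarith

theorem num_ineq : log (77 / 10 / (2 * π)) < (π ^ 2 / 15 + 6 / 25 * (∑' k : ℕ, 1 / ((k : ℝ) + 1) ^ 3)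
      - 4 / 25 * (log 5 * (π ^ 2 / 6) + ∑' k : ℕ, log ((k : ℝ) + 1) / ((k : ℝ) + 1) ^ 2)) / (1 + π ^ 2 / 75)
    - log (1 + π ^ 2 / 75) := by
  have hp1 := Real.pi_gt_d6
  have hp2 := Real.pi_lt_d6
  have hz := zeta3_ge
  have hs := logsum_le
  have h5 := log5_le
  have hpp1 : (9.8696 : ℝ) ≤ π ^ 2 := by nlinarith
  have hpp2 : π ^ 2 ≤ (9.869607 : ℝ) := by nlinarith
  set ζ := ∑' k : ℕ, 1 / ((k : ℝ) + 1) ^ 3 with hζ
  set σ := ∑' k : ℕ, log ((k : ℝ) + 1) / ((k : ℝ) + 1) ^ 2 with hσ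
  have hleft : log (77 / 10 / (2 * π)) ≤ 0.2034 := by
    refine log_le_of (by positivity) (by norm_num) ?_
    rw [div_le_iff₀ (by positivity)]
    nlinarith
  have hlog : log (1 + π ^ 2 / 75) ≤ 0.12364 := by
    refine log_le_of (by positivity) (by norm_num) ?_
    nlinarith
  have hnum : (0.372 : ℝ) ≤ π ^ 2 / 15 + 6 / 25 * ζ - 4 / 25 * (log 5 * (π ^ 2 / 6) + σ) := by
    have h6 : log 5 * (π ^ 2 / 6) ≤ 1.60945 * (π ^ 2 / 6) :=
      mul_le_mul_of_nonneg_right h5 (by positivity)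
    nlinarith
  have hdiv : (0.3287 : ℝ) ≤ (π ^ 2 / 15 + 6 / 25 * ζ - 4 / 25 * (log 5 * (π ^ 2 / 6) + σ)) / (1 + π ^ 2 / 75) := by
    rw [le_div_iff₀ (by positivity)]
    nlinarith
  linarith

end Pool.Agent.H46.PF
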