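import Pool.Agent.H46.PF.NumSums
import Pool.Agent.H46.PF.NumIneq

/-!
# Module NUM: choice of the parameters

By `aa_Z1`, `aa_WW`, `euler_sum`, `hasSum_zeta_two` (`∑ 1/k^2 = π^2/6`) and `summable_log`, as `K → ∞`:
`Z1 → 1 + π^2/75`, `WW → 4/25 (log 5 π^2/6 + ∑ log k/k^2)`, and the bracket in `aa_EE` tends to
`π^2/15 + (2/25 + 1/25) 2 ζ(3)` (the sums over the two finite subsets of `ℕ × ℕ` tend to the sum of `ee`: the
filtered sets also exhaust `ℕ × ℕ`). So by `num_ineq` for some `K` (then fixed)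
`log (2π/(77/10)) + (bracket - WW)/Z1 - log Z1 > 0`; this remains true with `r^(2K)` in front of the bracket
and `1/2 log r` added for `r < 1` close to `1` (continuity), then with `r^(L+1)/(1-r)` subtracted for `L` large, and
then with `- 2 δ` for small `δ > 0`.
-/

open Real Finset

namespace Pool.Agent.H46.PF

open Filter Topology

theorem tendsto_s1 : Tendsto (fun K : ℕ => ∑ k ∈ Finset.range K, 1 / ((k : ℝ) + 1) ^ 2) atTop
    (𝓝 (π ^ 2 / 6)) := by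
  have h := hasSum_zeta_two
  have h1 := (hasSum_nat_add_iff' 1).2 h
  simp only [Finset.range_one, Finset.sum_singleton, Nat.cast_zero] at h1
  have e1 : (fun k : ℕ => 1 / ((k : ℝ) + 1) ^ 2) = fun n : ℕ => 1 / ((n + 1 : ℕ) : ℝ) ^ 2 := by
    funext k
    push_cast
    rfl
  have e2 : π ^ 2 / 6 = π ^ 2 / 6 - 1 / (0 : ℝ) ^ 2 := by norm_num
  have h2 : HasSum (fun k : ℕ => 1 / ((k : ℝ) + 1) ^ 2) (π ^ 2 / 6) := by
    rw [e1, e2]
    exact h1
  exact h2.tendsto_sum_nat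

theorem tendsto_s4 : Tendsto (fun K : ℕ => ∑ p ∈ Finset.range K ×ˢ Finset.range K, ee p) atTop
    (𝓝 (2 * ∑' k : ℕ, 1 / ((k : ℝ) + 1) ^ 3)) := by
  have h : HasSum ee (2 * ∑' k : ℕ, 1 / ((k : ℝ) + 1) ^ 3) := euler_sum
  refine (h.comp (?_ : Tendsto (fun K : ℕ => Finset.range K ×ˢ Finset.range K) atTop atTop))
  refine tendsto_atTop_finset_of_monotone ?_ ?_
  · intro a b hab
    exact Finset.product_subset_product (Finset.range_mono hab) (Finset.range_mono hab)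
  · rintro ⟨a, b⟩
    refine ⟨a + b + 1, ?_⟩
    rw [Finset.mem_product, Finset.mem_range, Finset.mem_range]
    constructor
    · change a < a + b + 1
      omega
    · change b < a + b + 1
      omega

theorem tendsto_s3 : Tendsto (fun K : ℕ =>
    ∑ p ∈ (Finset.range K ×ˢ Finset.range K).filter (fun p => p.1 + p.2 + 2 ≤ K), ee p) atTop
    (𝓝 (2 * ∑' k : ℕ, 1 / ((k : ℝ) + 1) ^ 3)) := by
  have h : HasSum ee (2 * ∑' k : ℕ, 1 / ((k : ℝ) + 1) ^ 3) := euler_sum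
  refine (h.comp (?_ : Tendsto (fun K : ℕ => (Finset.range K ×ˢ Finset.range K).filter
    (fun p => p.1 + p.2 + 2 ≤ K)) atTop atTop))
  refine tendsto_atTop_finset_of_monotone ?_ ?_
  · intro a b hab p hp
    rw [Finset.mem_filter, Finset.mem_product, Finset.mem_range, Finset.mem_range] at hp ⊢
    omega
  · rintro ⟨a, b⟩
    refine ⟨a + b + 2, ?_⟩
    rw [Finset.mem_filter, Finset.mem_product, Finset.mem_range, Finset.mem_range]
    refine ⟨⟨?_, ?_⟩, ?_⟩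
    · change a < a + b + 2
      omega
    · change b < a + b + 2
      omega
    · change a + b + 2 ≤ a + b + 2
      omega

theorem tendsto_s2 : Tendsto (fun K : ℕ => ∑ k ∈ Finset.range K, log ((k : ℝ) + 1) / ((k : ℝ) + 1) ^ 2)
    atTop (𝓝 (∑' k : ℕ, log ((k : ℝ) + 1) / ((k : ℝ) + 1) ^ 2)) :=
  summable_log.hasSum.tendsto_sum_nat

theorem numeric : ∃ (K L : ℕ) (r δ : ℝ), 0 < r ∧ r < 1 ∧ 0 < δ ∧
    0 < log (2 * π / (77 / 10)) + (1 / 2) * log r - r ^ (L + 1) / (1 - r) + (EE aa K r L - δ)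
      - (WW aa K / Z1 aa K + δ + log (Z1 aa K)) := by
  set s1 : ℕ → ℝ := fun K => ∑ k ∈ Finset.range K, 1 / ((k : ℝ) + 1) ^ 2 with hs1
  set s2 : ℕ → ℝ := fun K => ∑ k ∈ Finset.range K, log ((k : ℝ) + 1) / ((k : ℝ) + 1) ^ 2 with hs2
  set s3 : ℕ → ℝ := fun K =>
    ∑ p ∈ (Finset.range K ×ˢ Finset.range K).filter (fun p => p.1 + p.2 + 2 ≤ K), ee p with hs3
  set s4 : ℕ → ℝ := fun K => ∑ p ∈ Finset.range K ×ˢ Finset.range K, ee p with hs4
  set Br : ℕ → ℝ := fun K => 2 / 5 * s1 K + 2 / 25 * s3 K + 1 / 25 * s4 K with hBr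
  set ζ3 : ℝ := ∑' k : ℕ, 1 / ((k : ℝ) + 1) ^ 3 with hζ3
  set SL : ℝ := ∑' k : ℕ, log ((k : ℝ) + 1) / ((k : ℝ) + 1) ^ 2 with hSL
  have t1 : Tendsto s1 atTop (𝓝 (π ^ 2 / 6)) := tendsto_s1
  have t2 : Tendsto s2 atTop (𝓝 SL) := tendsto_s2
  have t3 : Tendsto s3 atTop (𝓝 (2 * ζ3)) := tendsto_s3
  have t4 : Tendsto s4 atTop (𝓝 (2 * ζ3)) := tendsto_s4
  have tB : Tendsto Br atTop (𝓝 (2 / 5 * (π ^ 2 / 6) + 2 / 25 * (2 * ζ3) + 1 / 25 * (2 * ζ3))) :=
    ((t1.const_mul _).add (t3.const_mul _)).add (t4.const_mul _)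
  have tZ : Tendsto (fun K => Z1 aa K) atTop (𝓝 (1 + 2 / 25 * (π ^ 2 / 6))) := by
    have h : (fun K => Z1 aa K) = fun K => 1 + 2 / 25 * s1 K := by
      funext K
      exact aa_Z1 K
    rw [h]
    exact (t1.const_mul _).const_add _
  have tW : Tendsto (fun K => WW aa K) atTop (𝓝 (4 / 25 * (log 5 * (π ^ 2 / 6) + SL))) := by
    have h : (fun K => WW aa K) = fun K => 4 / 25 * (log 5 * s1 K + s2 K) := by
      funext K
      exact aa_WW K
    rw [h]
    exact ((t1.const_mul _).add t2).const_mul _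
  have hZpos : (0 : ℝ) < 1 + 2 / 25 * (π ^ 2 / 6) := by positivity
  have tG : Tendsto (fun K => log (2 * π / (77 / 10)) + Br K / Z1 aa K -
      (WW aa K / Z1 aa K + log (Z1 aa K))) atTop
      (𝓝 (log (2 * π / (77 / 10)) +
        (2 / 5 * (π ^ 2 / 6) + 2 / 25 * (2 * ζ3) + 1 / 25 * (2 * ζ3)) / (1 + 2 / 25 * (π ^ 2 / 6)) -
        (4 / 25 * (log 5 * (π ^ 2 / 6) + SL) / (1 + 2 / 25 * (π ^ 2 / 6)) +
          log (1 + 2 / 25 * (π ^ 2 / 6))))) :=
    ((tB.div tZ hZpos.ne').const_add _).sub ((tW.div tZ hZpos.ne').add (tZ.log hZpos.ne'))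
  have hlim : 0 < log (2 * π / (77 / 10)) +
        (2 / 5 * (π ^ 2 / 6) + 2 / 25 * (2 * ζ3) + 1 / 25 * (2 * ζ3)) / (1 + 2 / 25 * (π ^ 2 / 6)) -
        (4 / 25 * (log 5 * (π ^ 2 / 6) + SL) / (1 + 2 / 25 * (π ^ 2 / 6)) +
          log (1 + 2 / 25 * (π ^ 2 / 6))) := by
    have h := num_ineq
    have e1 : (1 : ℝ) + π ^ 2 / 75 = 1 + 2 / 25 * (π ^ 2 / 6) := by ring
    have e2 : log (2 * π / (77 / 10)) = - log (77 / 10 / (2 * π)) := by
      rw [← Real.log_inv, inv_div]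
    rw [e1, sub_div] at h
    rw [e2]
    have e3 : (2 / 5 * (π ^ 2 / 6) + 2 / 25 * (2 * ζ3) + 1 / 25 * (2 * ζ3)) =
        π ^ 2 / 15 + 6 / 25 * ζ3 := by ring
    rw [e3]
    linarith
  obtain ⟨K, hK⟩ := (tG.eventually (lt_mem_nhds hlim)).exists
  have hZ1 : 1 ≤ Z1 aa K := by
    rw [aa_Z1]
    have : 0 ≤ ∑ k ∈ Finset.range K, 1 / ((k : ℝ) + 1) ^ 2 :=
      Finset.sum_nonneg fun k _ => by positivity
    linarith
  have hZ0 : 0 < Z1 aa K := by linarith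
  -- choice of r
  have tH : Tendsto (fun r : ℝ => log (2 * π / (77 / 10)) + (1 / 2) * log r +
      r ^ (2 * K) * Br K / Z1 aa K - (WW aa K / Z1 aa K + log (Z1 aa K))) (𝓝[<] 1)
      (𝓝 (log (2 * π / (77 / 10)) + (1 / 2) * log 1 +
      1 ^ (2 * K) * Br K / Z1 aa K - (WW aa K / Z1 aa K + log (Z1 aa K)))) := by
    apply Tendsto.mono_left _ nhdsWithin_le_nhds
    apply ContinuousAt.tendsto
    have hlog : ContinuousAt (fun r : ℝ => log r) 1 := Real.continuousAt_log one_ne_zero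
    have hpow : ContinuousAt (fun r : ℝ => r ^ (2 * K)) 1 := (continuous_pow _).continuousAt
    exact ((continuousAt_const.add (continuousAt_const.mul hlog)).add
      ((hpow.mul continuousAt_const).div_const _)).sub continuousAt_const
  rw [Real.log_one, mul_zero, add_zero, one_pow, one_mul] at tH
  have hev := tH.eventually (lt_mem_nhds hK)
  have hev2 : ∀ᶠ r : ℝ in 𝓝[<] 1, 0 < r ∧ r < 1 := by
    have h1 : ∀ᶠ r : ℝ in 𝓝[<] 1, r < 1 := eventually_mem_nhdsWithin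
    have h2 : ∀ᶠ r : ℝ in 𝓝[<] 1, 0 < r :=
      nhdsWithin_le_nhds (lt_mem_nhds (by norm_num))
    exact h2.and h1
  obtain ⟨r, hHr, hr0, hr1⟩ := (hev.and hev2).exists
  set H : ℝ := log (2 * π / (77 / 10)) + (1 / 2) * log r +
      r ^ (2 * K) * Br K / Z1 aa K - (WW aa K / Z1 aa K + log (Z1 aa K)) with hH
  -- choice of L
  have tL : Tendsto (fun L : ℕ => r ^ (L + 1) / (1 - r)) atTop (𝓝 (0 / (1 - r))) :=
    ((tendsto_pow_atTop_nhds_zero_of_lt_one hr0.le hr1).comp (tendsto_add_atTop_nat 1)).div_const _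
  rw [zero_div] at tL
  obtain ⟨L, hL1, hL2⟩ := ((tL.eventually (gt_mem_nhds (half_pos hHr))).and
    (eventually_ge_atTop (2 * K))).exists
  refine ⟨K, L, r, H / 8, hr0, hr1, by positivity, ?_⟩
  have hEE : r ^ (2 * K) * Br K / Z1 aa K ≤ EE aa K r L := by
    rw [div_le_iff₀ hZ0]
    exact aa_EE hL2 hr0 hr1.le
  have : H - H / 2 - 2 * (H / 8) > 0 := by linarith
  linarith

end Pool.Agent.H46.PF
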