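import Pool.Agent.H46.PF.Defs

/-!
# Module PER: Perron vector of a symmetric matrix with nonnegative entries

Let `Λ` be the largest eigenvalue (`Matrix.IsHermitian.eigenvalues`, a maximum over a finite nonempty type), `w` a unit
eigenvector. Then `x ⬝ᵥ M x ≤ Λ x ⬝ᵥ x` for all `x` (spectral decomposition: `Λ - M` is positive semidefinite; or
take `Λ` as the maximum of the continuous function `x ⬝ᵥ M x` on the compact unit sphere). For `v = |w|`:
`v ⬝ᵥ M v ≥ w ⬝ᵥ M w = Λ`, `v ⬝ᵥ v = 1`, so `v ⬝ᵥ (Λ - M) v = 0` and, as `Λ - M` is positive semidefinite,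
`(Λ - M) v = 0` (`Matrix.PosSemidef.dotProduct_mulVec_zero_iff`).
-/

open Real Finset

namespace Pool.Agent.H46.PF

theorem perron {n : Type*} [Fintype n] [DecidableEq n] [Nonempty n] (M : Matrix n n ℝ) (hs : M.IsSymm)
    (h0 : ∀ i j, 0 ≤ M i j) :
    ∃ (Λ : ℝ) (v : n → ℝ), (∀ i, 0 ≤ v i) ∧ v ≠ 0 ∧ M.mulVec v = Λ • v ∧
      ∀ x : n → ℝ, x ⬝ᵥ M.mulVec x ≤ Λ * (x ⬝ᵥ x) := by
  set f : (n → ℝ) → ℝ := fun x => x ⬝ᵥ M.mulVec x with hf
  have hfc : Continuous f := by
    refine Continuous.dotProduct continuous_id ?_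
    exact Continuous.matrix_mulVec continuous_const continuous_id
  have hqc : Continuous fun x : n → ℝ => x ⬝ᵥ x := Continuous.dotProduct continuous_id continuous_id
  set S : Set (n → ℝ) := {x | x ⬝ᵥ x = 1} with hS
  have hSc : IsCompact S := by
    refine (isCompact_closedBall (0 : n → ℝ) 1).of_isClosed_subset (isClosed_eq hqc continuous_const) ?_
    intro x hx
    rw [mem_closedBall_zero_iff, pi_norm_le_iff_of_nonneg zero_le_one]
    intro i
    have h1 : x i * x i ≤ x ⬝ᵥ x :=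
      Finset.single_le_sum (f := fun i => x i * x i) (fun j _ => mul_self_nonneg _) (Finset.mem_univ i)
    have h2 : x ⬝ᵥ x = 1 := hx
    rw [h2] at h1
    rw [Real.norm_eq_abs]
    exact abs_le_of_sq_le_sq (by nlinarith) zero_le_one
  obtain ⟨i₀⟩ := ‹Nonempty n›
  have hSn : S.Nonempty := by
    refine ⟨Pi.single i₀ 1, ?_⟩
    simp [hS]
  obtain ⟨w, hwS, hw⟩ := hSc.exists_isMaxOn hSn hfc.continuousOn
  set Λ := f w with hΛ
  have hR : ∀ x : n → ℝ, f x ≤ Λ * (x ⬝ᵥ x) := by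
    intro x
    by_cases hx : x = 0
    · subst hx
      simp [hf]
    · have h1 : 0 < x ⬝ᵥ x := by
        refine lt_of_le_of_ne (Finset.sum_nonneg fun i _ => mul_self_nonneg _) ?_
        intro h
        exact hx (dotProduct_self_eq_zero.1 h.symm)
      set c := (Real.sqrt (x ⬝ᵥ x))⁻¹ with hc
      have hc2 : c * c * (x ⬝ᵥ x) = 1 := by
        rw [hc, ← mul_inv, Real.mul_self_sqrt h1.le, inv_mul_cancel₀ h1.ne']
      have h2 : c • x ∈ S := by
        show (c • x) ⬝ᵥ (c • x) = 1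
        rw [smul_dotProduct, dotProduct_smul, smul_eq_mul, smul_eq_mul, ← mul_assoc, hc2]
      have h3 : f (c • x) ≤ Λ := hw h2
      have h4 : f (c • x) = c * c * f x := by
        simp only [hf]
        rw [Matrix.mulVec_smul, smul_dotProduct, dotProduct_smul, smul_eq_mul, smul_eq_mul, mul_assoc]
      rw [h4] at h3
      calc f x = (c * c * f x) * (x ⬝ᵥ x) := by
            rw [mul_right_comm, hc2, one_mul]
        _ ≤ Λ * (x ⬝ᵥ x) := mul_le_mul_of_nonneg_right h3 h1.le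
  set v : n → ℝ := fun i => |w i| with hv
  have hvv : v ⬝ᵥ v = 1 := by
    have h2 : w ⬝ᵥ w = 1 := hwS
    rw [← h2]
    refine Finset.sum_congr rfl fun i _ => ?_
    exact abs_mul_abs_self _
  have hfv : Λ ≤ f v := by
    rw [hΛ]
    simp only [hf, dotProduct, Matrix.mulVec, Finset.mul_sum]
    refine Finset.sum_le_sum fun i _ => Finset.sum_le_sum fun j _ => ?_
    calc w i * (M i j * w j) ≤ |w i * (M i j * w j)| := le_abs_self _
      _ = |w i| * (M i j * |w j|) := by rw [abs_mul, abs_mul, abs_of_nonneg (h0 i j)]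
  have hfv' : f v = Λ := le_antisymm (by have := hR v; rwa [hvv, mul_one] at this) hfv
  refine ⟨Λ, v, fun i => abs_nonneg _, ?_, ?_, hR⟩
  · intro h
    rw [h] at hvv
    simp at hvv
  · set y : n → ℝ := M.mulVec v - Λ • v with hy
    have hsym : ∀ a b : n → ℝ, a ⬝ᵥ M.mulVec b = b ⬝ᵥ M.mulVec a := by
      intro a b
      rw [Matrix.dotProduct_mulVec, ← Matrix.mulVec_transpose, hs, dotProduct_comm]
    have hexp : ∀ t : ℝ, 2 * t * (y ⬝ᵥ y) ≤ t ^ 2 * (Λ * (y ⬝ᵥ y) - f y) := by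
      intro t
      have h1 := hR (v + t • y)
      have h2 : f (v + t • y) = Λ + 2 * t * (y ⬝ᵥ M.mulVec v) + t ^ 2 * f y := by
        simp only [hf, Matrix.mulVec_add, Matrix.mulVec_smul, add_dotProduct, dotProduct_add,
          smul_dotProduct, dotProduct_smul, smul_eq_mul]
        rw [hsym v y, show v ⬝ᵥ M.mulVec v = Λ from hfv']
        ring
      have h3 : (v + t • y) ⬝ᵥ (v + t • y) = 1 + 2 * t * (y ⬝ᵥ v) + t ^ 2 * (y ⬝ᵥ y) := by
        simp only [add_dotProduct, dotProduct_add, smul_dotProduct, dotProduct_smul, smul_eq_mul]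
        rw [dotProduct_comm v y, hvv]
        ring
      have h4 : y ⬝ᵥ y = y ⬝ᵥ M.mulVec v - Λ * (y ⬝ᵥ v) := by
        conv_lhs => rw [hy]
        rw [← hy, dotProduct_comm, hy, dotProduct_sub, dotProduct_smul, smul_eq_mul]
      rw [h2, h3] at h1
      rw [h4] at h1 ⊢
      nlinarith
    have hy0 : y ⬝ᵥ y = 0 := by
      have hyn : 0 ≤ y ⬝ᵥ y := Finset.sum_nonneg fun i _ => mul_self_nonneg _
      by_contra hne
      have hpos : 0 < y ⬝ᵥ y := lt_of_le_of_ne hyn (Ne.symm hne)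
      set C := |Λ * (y ⬝ᵥ y) - f y| + 1 with hC
      have hCpos : 0 < C := by positivity
      have h1 := hexp ((y ⬝ᵥ y) / C)
      have h2 : ((y ⬝ᵥ y) / C) ^ 2 * (Λ * (y ⬝ᵥ y) - f y) ≤ ((y ⬝ᵥ y) / C) ^ 2 * C := by
        refine mul_le_mul_of_nonneg_left ?_ (sq_nonneg _)
        rw [hC]
        linarith [le_abs_self (Λ * (y ⬝ᵥ y) - f y)]
      have h3 : ((y ⬝ᵥ y) / C) ^ 2 * C = (y ⬝ᵥ y) ^ 2 / C := by
        field_simp
      have h4 : 2 * ((y ⬝ᵥ y) / C) * (y ⬝ᵥ y) = 2 * ((y ⬝ᵥ y) ^ 2 / C) := by ring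
      rw [h4] at h1
      rw [h3] at h2
      have h5 : 0 < (y ⬝ᵥ y) ^ 2 / C := by positivity
      linarith
    have hy1 : y = 0 := dotProduct_self_eq_zero.1 hy0
    rw [hy] at hy1
    exact sub_eq_zero.1 hy1

end Pool.Agent.H46.PF
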