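import Pool.Agent.H46.PF.Quad

/-!
# Module TRI: the trial set

`B = typ a K d (d (W/Z1 + δ))`, `u = xx a`. By `tail`, `∑_{box \ B} u^2 ≤ (Z1 e^{-c₁})^d`. Then
`∑_{n, k ∈ B} u n mw (n-k) u k ≥ ∑_{n, k ∈ box} - 2 ∑_{n ∈ box \ B} u n ∑_{k ∈ box} mw (n-k) u k`
(`mw` is nonnegative and even: `wt` is), and by `row`
`∑_{k ∈ box} mw (n-k) u k ≤ d C u n`, `C = max_j (∑_l wt (j-l) a l)/a j`. So the left side is
`≥ d EE Z1^d - 2 d C (Z1 e^{-c₁})^d ≥ d (EE - δ) Z1^d` for `2 C e^{-c₁ d} ≤ δ`, and `∑_B u^2 ≤ Z1^d`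
(if `EE - δ < 0` use instead `∑_{n,k ∈ B} ≥ 0`). `∑_B u^2 ≥ Z1^d (1 - e^{-c₁ d}) > 0` for `d ≥ 1`, hence `B` is nonempty.
-/

open Real Finset

namespace Pool.Agent.H46.PF

private theorem tri_wt_nonneg {r : ℝ} (hr : 0 < r) (L : ℕ) (j : ℤ) : 0 ≤ wt r L j := by
  unfold wt
  split_ifs
  · positivity
  · exact le_rfl

private theorem tri_wt_neg (r : ℝ) (L : ℕ) (j : ℤ) : wt r L (-j) = wt r L j := by
  unfold wt
  simp only [ne_eq, neg_eq_zero, Int.natAbs_neg]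

private theorem tri_mw_nonneg {d : ℕ} {r : ℝ} (hr : 0 < r) (L : ℕ) (m : Fin d → ℤ) :
    0 ≤ mw r L m := by
  unfold mw
  refine sum_nonneg fun i _ => ?_
  split_ifs
  · exact tri_wt_nonneg hr L _
  · exact le_rfl

private theorem tri_mw_neg {d : ℕ} (r : ℝ) (L : ℕ) (m : Fin d → ℤ) : mw r L (-m) = mw r L m := by
  unfold mw
  refine sum_congr rfl fun i _ => ?_
  rw [Pi.neg_apply, tri_wt_neg]
  by_cases h : ∀ i', i' ≠ i → m i' = 0
  · rw [if_pos h, if_pos fun i' hi' => by rw [Pi.neg_apply, h i' hi', neg_zero]]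
  · rw [if_neg h, if_neg fun h' => h fun i' hi' => neg_eq_zero.1 (h' i' hi')]

private theorem tri_mem_box {K d : ℕ} {n : Fin d → ℤ} (hn : n ∈ box K d) (i : Fin d) :
    n i ∈ Finset.Icc (-(K : ℤ)) K := by
  unfold box at hn
  exact (Fintype.mem_piFinset.1 hn) i

private theorem tri_xx_pos {a : ℤ → ℝ} {K : ℕ} (ha : ∀ j ∈ Finset.Icc (-(K : ℤ)) K, 0 < a j)
    {d : ℕ} {n : Fin d → ℤ} (hn : n ∈ box K d) : 0 < xx a n := by
  unfold xx
  exact prod_pos fun i _ => ha _ (tri_mem_box hn i)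

/-- the row sums are bounded by a multiple of the entry -/
private theorem tri_row {a : ℤ → ℝ} {K : ℕ} (ha : ∀ j ∈ Finset.Icc (-(K : ℤ)) K, 0 < a j) {r : ℝ}
    (L : ℕ) {C : ℝ} (hC : ∀ j ∈ Finset.Icc (-(K : ℤ)) K,
      ∑ l ∈ Finset.Icc (-(K : ℤ)) K, wt r L (j - l) * a l ≤ C * a j)
    {d : ℕ} {n : Fin d → ℤ} (hn : n ∈ box K d) :
    ∑ k ∈ box K d, mw r L (n - k) * xx a k ≤ d * C * xx a n := by
  rw [row a r L hn]
  have h1 : ∀ i ∈ (Finset.univ : Finset (Fin d)),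
      (∑ l ∈ Finset.Icc (-(K : ℤ)) K, wt r L (n i - l) * a l) *
        ∏ i' ∈ Finset.univ.erase i, a (n i') ≤ C * xx a n := by
    intro i _
    have h2 : xx a n = a (n i) * ∏ i' ∈ Finset.univ.erase i, a (n i') := by
      unfold xx
      exact (Finset.mul_prod_erase Finset.univ (fun i => a (n i)) (Finset.mem_univ i)).symm
    rw [h2, ← mul_assoc]
    refine mul_le_mul_of_nonneg_right (hC _ (tri_mem_box hn i)) ?_
    exact prod_nonneg fun i' _ => (ha _ (tri_mem_box hn i')).le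
  refine (sum_le_sum h1).trans (le_of_eq ?_)
  rw [sum_const, card_univ, Fintype.card_fin, nsmul_eq_mul, mul_assoc]

theorem trial {a : ℤ → ℝ} {K : ℕ} (ha : ∀ j ∈ Finset.Icc (-(K : ℤ)) K, 0 < a j) {r : ℝ} (hr : 0 < r) (L : ℕ)
    {δ : ℝ} (hδ : 0 < δ) :
    ∃ d₀ : ℕ, ∀ d ≥ d₀, ∃ B : Finset (Fin d → ℤ), B.Nonempty ∧
      (B.card : ℝ) ≤ exp (d * (WW a K / Z1 a K + δ + log (Z1 a K))) ∧
      ∃ u : (Fin d → ℤ) → ℝ, 0 < ∑ k ∈ B, u k ^ 2 ∧
        d * (EE a K r L - δ) * ∑ k ∈ B, u k ^ 2 ≤ ∑ n ∈ B, ∑ k ∈ B, u n * mw r L (n - k) * u k := by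
  classical
  obtain ⟨c₁, hc₁, htail⟩ := tail ha hδ
  have h0I : (0 : ℤ) ∈ Finset.Icc (-(K : ℤ)) K := by
    rw [Finset.mem_Icc]
    constructor <;> omega
  have hZ : 0 < Z1 a K := by
    unfold Z1
    exact sum_pos (fun j hj => pow_pos (ha j hj) 2) ⟨0, h0I⟩
  -- the constant `C`
  obtain ⟨C, hC0, hC⟩ : ∃ C : ℝ, 0 ≤ C ∧ ∀ j ∈ Finset.Icc (-(K : ℤ)) K,
      ∑ l ∈ Finset.Icc (-(K : ℤ)) K, wt r L (j - l) * a l ≤ C * a j := by
    have hnn : ∀ j ∈ Finset.Icc (-(K : ℤ)) K,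
        0 ≤ (∑ l ∈ Finset.Icc (-(K : ℤ)) K, wt r L (j - l) * a l) / a j := by
      intro j hj
      refine div_nonneg (sum_nonneg fun l hl => ?_) (ha j hj).le
      exact mul_nonneg (tri_wt_nonneg hr L _) (ha l hl).le
    refine ⟨∑ j ∈ Finset.Icc (-(K : ℤ)) K,
      (∑ l ∈ Finset.Icc (-(K : ℤ)) K, wt r L (j - l) * a l) / a j, sum_nonneg hnn, ?_⟩
    intro j hj
    rw [← div_le_iff₀ (ha j hj)]
    exact single_le_sum (f := fun j =>
      (∑ l ∈ Finset.Icc (-(K : ℤ)) K, wt r L (j - l) * a l) / a j) hnn hj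
  refine ⟨max 1 ⌈2 * C / (c₁ * δ)⌉₊, fun d hd => ?_⟩
  have hd1 : 1 ≤ d := (le_max_left _ _).trans hd
  have hd2 : 2 * C / (c₁ * δ) ≤ d :=
    (Nat.le_ceil _).trans (by exact_mod_cast (le_max_right _ _).trans hd)
  have hd0 : (0 : ℝ) ≤ d := Nat.cast_nonneg _
  have hexp : 2 * C * exp (-(c₁ * d)) ≤ δ := by
    have h1 : 2 * C ≤ d * (c₁ * δ) := by
      rwa [div_le_iff₀ (by positivity)] at hd2
    have h2 : c₁ * d ≤ exp (c₁ * d) := by
      have := Real.add_one_le_exp (c₁ * d)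
      linarith
    have h3 : 2 * C ≤ δ * exp (c₁ * d) := by
      calc 2 * C ≤ δ * (c₁ * d) := by linarith
        _ ≤ δ * exp (c₁ * d) := mul_le_mul_of_nonneg_left h2 hδ.le
    rw [exp_neg]
    calc 2 * C * (exp (c₁ * d))⁻¹ ≤ δ * exp (c₁ * d) * (exp (c₁ * d))⁻¹ :=
          mul_le_mul_of_nonneg_right h3 (by positivity)
      _ = δ := by
          rw [mul_assoc, mul_inv_cancel₀ (exp_pos _).ne', mul_one]
  set cc : ℝ := d * (WW a K / Z1 a K + δ) with hcc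
  set b := box K d with hb
  set B := typ a K d cc with hB
  set u : (Fin d → ℤ) → ℝ := fun k => xx a k with hu
  have hBb : B ⊆ b := by
    rw [hB, hb]
    unfold typ
    exact filter_subset _ _
  have hupos : ∀ k ∈ b, 0 < u k := fun k hk => tri_xx_pos ha hk
  have htot : ∑ k ∈ b, u k ^ 2 = Z1 a K ^ d := sum_xx_sq a K d
  have hsplit : ∑ k ∈ b \ B, u k ^ 2 + ∑ k ∈ B, u k ^ 2 = ∑ k ∈ b, u k ^ 2 :=
    sum_sdiff hBb
  have htl : ∑ k ∈ b \ B, u k ^ 2 ≤ Z1 a K ^ d * exp (-(c₁ * d)) := by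
    have h1 := htail d
    rw [mul_pow, ← exp_nat_mul] at h1
    have e1 : (d : ℝ) * -c₁ = -(c₁ * d) := by ring
    rw [e1] at h1
    exact h1
  have hZd : 0 < Z1 a K ^ d := pow_pos hZ d
  have hpos : 0 < ∑ k ∈ B, u k ^ 2 := by
    have h1 : exp (-(c₁ * d)) < 1 := by
      rw [exp_lt_one_iff]
      have : (1 : ℝ) ≤ d := by exact_mod_cast hd1
      have : 0 < c₁ * d := by positivity
      linarith
    have h2 : Z1 a K ^ d * exp (-(c₁ * d)) < Z1 a K ^ d * 1 := mul_lt_mul_of_pos_left h1 hZd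
    linarith
  have hBle : ∑ k ∈ B, u k ^ 2 ≤ Z1 a K ^ d := by
    have h1 : 0 ≤ ∑ k ∈ b \ B, u k ^ 2 := sum_nonneg fun k _ => sq_nonneg _
    linarith
  refine ⟨B, ?_, ?_, u, hpos, ?_⟩
  · by_contra hne
    rw [not_nonempty_iff_eq_empty] at hne
    rw [hne, sum_empty] at hpos
    exact lt_irrefl _ hpos
  · refine (card_typ ha d cc).trans (le_of_eq ?_)
    have e1 : (d : ℝ) * (WW a K / Z1 a K + δ + log (Z1 a K)) = cc + d * log (Z1 a K) := by
      rw [hcc]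
      ring
    rw [e1, exp_add, exp_nat_mul (log (Z1 a K)) d, exp_log hZ]
  · -- the main estimate
    have hterm : ∀ n ∈ b, ∀ k ∈ b, 0 ≤ u n * mw r L (n - k) * u k := fun n hn k hk =>
      mul_nonneg (mul_nonneg (hupos n hn).le (tri_mw_nonneg hr L _)) (hupos k hk).le
    have hBB0 : 0 ≤ ∑ n ∈ B, ∑ k ∈ B, u n * mw r L (n - k) * u k :=
      sum_nonneg fun n hn => sum_nonneg fun k hk => hterm n (hBb hn) k (hBb hk)
    rcases le_total (EE a K r L) δ with hE | hE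
    · refine le_trans ?_ hBB0
      have h1 : (d : ℝ) * (EE a K r L - δ) ≤ 0 :=
        mul_nonpos_of_nonneg_of_nonpos hd0 (by linarith)
      exact mul_nonpos_of_nonpos_of_nonneg h1 hpos.le
    · have hfull : ∑ n ∈ b, ∑ k ∈ b, u n * mw r L (n - k) * u k =
          d * EE a K r L * Z1 a K ^ d := quad_total a r L hZ.ne'
      -- rows
      have hrow : ∀ n ∈ b, ∑ k ∈ b, u n * mw r L (n - k) * u k ≤ d * C * u n ^ 2 := by
        intro n hn
        have h1 : ∑ k ∈ b, u n * mw r L (n - k) * u k =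
            u n * ∑ k ∈ b, mw r L (n - k) * u k := by
          rw [mul_sum]
          exact sum_congr rfl fun k _ => by ring
        rw [h1]
        have h2 := tri_row ha L hC hn
        calc u n * ∑ k ∈ b, mw r L (n - k) * u k ≤ u n * (d * C * u n) :=
              mul_le_mul_of_nonneg_left h2 (hupos n hn).le
          _ = d * C * u n ^ 2 := by ring
      have hbad : ∑ n ∈ b \ B, ∑ k ∈ b, u n * mw r L (n - k) * u k ≤
          d * C * (Z1 a K ^ d * exp (-(c₁ * d))) := by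
        calc _ ≤ ∑ n ∈ b \ B, d * C * u n ^ 2 :=
              sum_le_sum fun n hn => hrow n (mem_sdiff.1 hn).1
          _ = d * C * ∑ n ∈ b \ B, u n ^ 2 := by rw [mul_sum]
          _ ≤ _ := mul_le_mul_of_nonneg_left htl (by positivity)
      -- columns
      have hcol : ∑ n ∈ B, ∑ k ∈ b \ B, u n * mw r L (n - k) * u k ≤
          ∑ n ∈ b \ B, ∑ k ∈ b, u n * mw r L (n - k) * u k := by
        calc ∑ n ∈ B, ∑ k ∈ b \ B, u n * mw r L (n - k) * u k
            ≤ ∑ n ∈ b, ∑ k ∈ b \ B, u n * mw r L (n - k) * u k := by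
              refine sum_le_sum_of_subset_of_nonneg hBb fun n hn _ => ?_
              exact sum_nonneg fun k hk => hterm n hn k (mem_sdiff.1 hk).1
          _ = ∑ k ∈ b \ B, ∑ n ∈ b, u n * mw r L (n - k) * u k := sum_comm
          _ = _ := by
              refine sum_congr rfl fun k _ => sum_congr rfl fun n _ => ?_
              have e1 : n - k = -(k - n) := (neg_sub k n).symm
              rw [e1, tri_mw_neg]
              ring
      have hdec : ∑ n ∈ b, ∑ k ∈ b, u n * mw r L (n - k) * u k =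
          ∑ n ∈ b \ B, ∑ k ∈ b, u n * mw r L (n - k) * u k +
          (∑ n ∈ B, ∑ k ∈ b \ B, u n * mw r L (n - k) * u k +
            ∑ n ∈ B, ∑ k ∈ B, u n * mw r L (n - k) * u k) := by
        rw [← sum_sdiff hBb]
        congr 1
        rw [← sum_add_distrib]
        exact sum_congr rfl fun n _ => (sum_sdiff hBb).symm
      have h5 : d * EE a K r L * Z1 a K ^ d - 2 * (d * C * (Z1 a K ^ d * exp (-(c₁ * d)))) ≤
          ∑ n ∈ B, ∑ k ∈ B, u n * mw r L (n - k) * u k := by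
        rw [← hfull]
        linarith
      refine le_trans ?_ h5
      have h6 : (d : ℝ) * Z1 a K ^ d * (2 * C * exp (-(c₁ * d))) ≤ d * Z1 a K ^ d * δ :=
        mul_le_mul_of_nonneg_left hexp (by positivity)
      have h7 : (d : ℝ) * (EE a K r L - δ) * ∑ k ∈ B, u k ^ 2 ≤
          d * (EE a K r L - δ) * Z1 a K ^ d :=
        mul_le_mul_of_nonneg_left hBle (mul_nonneg hd0 (by linarith))
      refine h7.trans ?_
      nlinarith [h6]

end Pool.Agent.H46.PF
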