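import Pool.Agent.H46.PF.Defs

/-!
# Module VOL: volume of a sublevel set

`A u = ∑ i, log (1 + u i ^ 2)`.
* `∫ exp (-A) = (∫ (1 + x^2)⁻¹)^d = π^d` (`integral_univ_inv_one_add_sq`, `MeasureTheory.integral_fintype_prod_volume_eq_pow`
  or `integral_fintype_prod_eq_pow`).
* `C = ∫ (1 + x^2)^(-3/4) < ∞` (`integrable_rpow_neg_one_add_norm_sq` or comparison with `(1+|x|)^(-3/2)`);
  `∫_{A ≥ H d} exp (-A) ≤ exp (-H d / 4) ∫ exp (-3/4 A) = (exp (-H/4) C)^d ≤ (π/2)^d ≤ π^d / 2` for `H` large.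
* So `π^d / 2 ≤ ∫_{A < H d} exp (-A) ≤ ∑_{m < M} exp (-m) vol {A ≤ m + 1}`, where `M` is the least integer `≥ H d`
  (`M ≤ H d + 1`); some term is at least the average `π^d / (2 M)`; put `m + 1` for `m`.
* The set is bounded (`u i ^ 2 ≤ exp m`), so its volume is finite.
-/

open Real Finset MeasureTheory

namespace Pool.Agent.H46.PF

/-- sublevel set -/
def SS (d : ℕ) (h : ℝ) : Set (Fin d → ℝ) := {u | ∑ i, log (1 + u i ^ 2) ≤ h}

theorem measurableSet_SS (d : ℕ) (h : ℝ) : MeasurableSet (SS d h) := by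
  have : Measurable (fun u : Fin d → ℝ => ∑ i, log (1 + u i ^ 2)) := by fun_prop
  exact measurableSet_le this measurable_const

theorem log_one_add_sq_nonneg (x : ℝ) : 0 ≤ log (1 + x ^ 2) :=
  log_nonneg (by nlinarith [sq_nonneg x])

theorem volume_SS_ne_top (d : ℕ) (h : ℝ) : volume (SS d h) ≠ ⊤ := by
  have hsub : SS d h ⊆ Metric.closedBall (0 : Fin d → ℝ) (exp h + 1) := by
    intro u hu
    rw [Metric.mem_closedBall, dist_zero_right, pi_norm_le_iff_of_nonneg (by positivity)]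
    intro i
    have h1 : log (1 + u i ^ 2) ≤ h := by
      refine le_trans ?_ hu
      exact Finset.single_le_sum (f := fun i => log (1 + u i ^ 2))
        (fun j _ => log_one_add_sq_nonneg _) (Finset.mem_univ i)
    have hpos : 0 < 1 + u i ^ 2 := by positivity
    have h2 : 1 + u i ^ 2 ≤ exp h := (log_le_iff_le_exp hpos).1 h1
    have hex := exp_pos h
    rw [Real.norm_eq_abs]
    refine abs_le_of_sq_le_sq ?_ (by positivity)
    nlinarith
  exact ((measure_mono hsub).trans_lt measure_closedBall_lt_top).ne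

theorem exp_neg_A (d : ℕ) (u : Fin d → ℝ) :
    exp (-∑ i, log (1 + u i ^ 2)) = ∏ i, (1 + u i ^ 2)⁻¹ := by
  rw [← Finset.sum_neg_distrib, Real.exp_sum]
  refine Finset.prod_congr rfl fun i _ => ?_
  rw [Real.exp_neg, Real.exp_log (by positivity)]

theorem exp_neg_A' (d : ℕ) (u : Fin d → ℝ) :
    exp (-(3 / 4) * ∑ i, log (1 + u i ^ 2)) = ∏ i, (1 + u i ^ 2) ^ (-(3 / 4) : ℝ) := by
  rw [Finset.mul_sum, Real.exp_sum]
  refine Finset.prod_congr rfl fun i _ => ?_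
  rw [Real.rpow_def_of_pos (by positivity)]
  ring_nf

theorem integrable_C : Integrable fun x : ℝ => (1 + x ^ 2) ^ (-(3 / 4) : ℝ) := by
  have h := integrable_rpow_neg_one_add_norm_sq (E := ℝ) (μ := volume) (r := 3 / 2)
    (by rw [Module.finrank_self]; norm_num)
  refine h.congr (Filter.Eventually.of_forall fun x => ?_)
  simp only [Real.norm_eq_abs, sq_abs]
  norm_num

/-- pointwise inequality -/
theorem pointwise (d : ℕ) (T : ℝ) (hT : 0 < T) (u : Fin d → ℝ) :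
    ∏ i, (1 + u i ^ 2)⁻¹ ≤ exp (-(T / 4)) * ∏ i, (1 + u i ^ 2) ^ (-(3 / 4) : ℝ) +
      ∑ m ∈ range ⌈T⌉₊, (SS d ((m + 1 : ℕ) : ℝ)).indicator (fun _ => exp (-(m : ℝ))) u := by
  have hA : 0 ≤ ∑ i, log (1 + u i ^ 2) := Finset.sum_nonneg fun i _ => log_one_add_sq_nonneg _
  have hs : 0 ≤ ∑ m ∈ range ⌈T⌉₊,
      (SS d ((m + 1 : ℕ) : ℝ)).indicator (fun _ => exp (-(m : ℝ))) u := by
    refine Finset.sum_nonneg fun m _ => ?_
    exact Set.indicator_nonneg (fun _ _ => (exp_pos _).le) _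
  rw [← exp_neg_A, ← exp_neg_A']
  rcases le_or_gt T (∑ i, log (1 + u i ^ 2)) with h | h
  · have : exp (-∑ i, log (1 + u i ^ 2)) ≤
        exp (-(T / 4)) * exp (-(3 / 4) * ∑ i, log (1 + u i ^ 2)) := by
      rw [← Real.exp_add]
      apply Real.exp_le_exp.2
      linarith
    linarith
  · set a := ∑ i, log (1 + u i ^ 2) with ha
    have hm : ⌊a⌋₊ ∈ range ⌈T⌉₊ := by
      rw [Finset.mem_range]
      have h1 : (⌊a⌋₊ : ℝ) ≤ a := Nat.floor_le hA
      have h2 : T ≤ ⌈T⌉₊ := Nat.le_ceil T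
      have : (⌊a⌋₊ : ℝ) < (⌈T⌉₊ : ℝ) := by linarith
      exact_mod_cast this
    have hmem : u ∈ SS d ((⌊a⌋₊ + 1 : ℕ) : ℝ) := by
      have := Nat.lt_floor_add_one a
      simp only [SS, Set.mem_ofPred_eq]
      push_cast
      rw [← ha]
      exact this.le
    have h3 : exp (-a) ≤ ∑ m ∈ range ⌈T⌉₊,
      (SS d ((m + 1 : ℕ) : ℝ)).indicator (fun _ => exp (-(m : ℝ))) u := by
      refine le_trans ?_ (Finset.single_le_sum
        (f := fun m : ℕ => (SS d ((m + 1 : ℕ) : ℝ)).indicator (fun _ => exp (-(m : ℝ))) u)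
        (fun m _ => Set.indicator_nonneg (fun _ _ => (exp_pos _).le) _) hm)
      rw [Set.indicator_of_mem hmem]
      apply Real.exp_le_exp.2
      have := Nat.floor_le hA
      linarith
    have h4 : 0 ≤ exp (-(T / 4)) * exp (-(3 / 4) * a) := by positivity
    linarith

theorem integrated (d : ℕ) (T : ℝ) (hT : 0 < T) :
    π ^ d ≤ exp (-(T / 4)) * (∫ x : ℝ, (1 + x ^ 2) ^ (-(3 / 4) : ℝ)) ^ d +
      ∑ m ∈ range ⌈T⌉₊, exp (-(m : ℝ)) * (volume (SS d ((m + 1 : ℕ) : ℝ))).toReal := by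
  have i1 : Integrable (fun u : Fin d → ℝ => ∏ i, (1 + u i ^ 2)⁻¹) :=
    MeasureTheory.Integrable.fin_nat_prod (fun _ => integrable_inv_one_add_sq)
  have i2 : Integrable (fun u : Fin d → ℝ => ∏ i, (1 + u i ^ 2) ^ (-(3 / 4) : ℝ)) :=
    MeasureTheory.Integrable.fin_nat_prod (fun _ => integrable_C)
  have i3 : ∀ m ∈ range ⌈T⌉₊, Integrable (fun u : Fin d → ℝ =>
      (SS d ((m + 1 : ℕ) : ℝ)).indicator (fun _ => exp (-(m : ℝ))) u) := by
    intro m _
    exact (integrable_indicator_iff (measurableSet_SS d _)).2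
      (integrableOn_const (volume_SS_ne_top d _))
  have h := integral_mono i1 ((i2.const_mul (exp (-(T / 4)))).add (integrable_finsetSum _ i3))
    (fun u => pointwise d T hT u)
  have e1 : ∫ u : Fin d → ℝ, ∏ i, (1 + u i ^ 2)⁻¹ = π ^ d := by
    rw [MeasureTheory.integral_fintype_prod_volume_eq_pow (fun x : ℝ => (1 + x ^ 2)⁻¹),
      integral_univ_inv_one_add_sq, Fintype.card_fin]
  have e2 : ∫ u : Fin d → ℝ, ∏ i, (1 + u i ^ 2) ^ (-(3 / 4) : ℝ) =
      (∫ x : ℝ, (1 + x ^ 2) ^ (-(3 / 4) : ℝ)) ^ d := by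
    rw [MeasureTheory.integral_fintype_prod_volume_eq_pow
      (fun x : ℝ => (1 + x ^ 2) ^ (-(3 / 4) : ℝ)), Fintype.card_fin]
  have e3 : ∫ u : Fin d → ℝ, (exp (-(T / 4)) * ∏ i, (1 + u i ^ 2) ^ (-(3 / 4) : ℝ) +
      ∑ m ∈ range ⌈T⌉₊, (SS d ((m + 1 : ℕ) : ℝ)).indicator (fun _ => exp (-(m : ℝ))) u) =
      exp (-(T / 4)) * (∫ x : ℝ, (1 + x ^ 2) ^ (-(3 / 4) : ℝ)) ^ d +
      ∑ m ∈ range ⌈T⌉₊, exp (-(m : ℝ)) * (volume (SS d ((m + 1 : ℕ) : ℝ))).toReal := by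
    rw [integral_add (i2.const_mul _) (integrable_finsetSum _ i3), integral_const_mul, e2,
      integral_finsetSum _ i3]
    congr 1
    refine Finset.sum_congr rfl fun m _ => ?_
    rw [integral_indicator_const _ (measurableSet_SS d _), smul_eq_mul, mul_comm]
    rfl
  rw [e1] at h
  rw [← e3]
  exact h

theorem vol_lower : ∃ H : ℝ, 0 < H ∧ ∀ d : ℕ, 1 ≤ d → ∃ m : ℕ,
    exp m * π ^ d / (2 * exp 1 * (H * d + 1)) ≤ (volume (SS d m)).toReal := by
  set C : ℝ := ∫ x : ℝ, (1 + x ^ 2) ^ (-(3 / 4) : ℝ) with hC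
  have hC0 : 0 ≤ C := integral_nonneg fun x => by positivity
  have hH : (0 : ℝ) < 4 * (C + 1) := by positivity
  refine ⟨4 * (C + 1), hH, fun d hd => ?_⟩
  have hd0 : (0 : ℝ) < d := by exact_mod_cast hd
  have hT : 0 < 4 * (C + 1) * d := by positivity
  have h := integrated d (4 * (C + 1) * d) hT
  rw [← hC] at h
  have hpi := Real.pi_pos
  have hpi3 := Real.pi_gt_three
  -- the tail
  have h1 : exp (-(4 * (C + 1) * d / 4)) * C ^ d ≤ π ^ d / 2 := by
    have e : exp (-(4 * (C + 1) * d / 4)) * C ^ d = (exp (-(C + 1)) * C) ^ d := by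
      rw [mul_pow, ← Real.exp_nat_mul]
      congr 2
      ring
    rw [e]
    have h2 : exp (-(C + 1)) * C ≤ π / 2 := by
      have h3 : C ≤ exp (C + 1) := by
        have := Real.add_one_le_exp (C + 1)
        linarith
      have h4 : exp (-(C + 1)) * C ≤ exp (-(C + 1)) * exp (C + 1) := by
        gcongr
      rw [← Real.exp_add, neg_add_cancel, Real.exp_zero] at h4
      linarith
    have h5 : (exp (-(C + 1)) * C) ^ d ≤ (π / 2) ^ d := by
      gcongr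
    have h6 : (π / 2) ^ d ≤ π ^ d / 2 := by
      rw [div_pow]
      have : (2 : ℝ) ^ 1 ≤ 2 ^ d := pow_le_pow_right₀ (by norm_num) hd
      rw [pow_one] at this
      gcongr
    linarith
  set T := 4 * (C + 1) * d with hTdef
  have hM : (⌈T⌉₊ : ℝ) < T + 1 := Nat.ceil_lt_add_one hT.le
  have hM0 : 0 < ⌈T⌉₊ := Nat.ceil_pos.2 hT
  have hsum : ∑ _m ∈ range ⌈T⌉₊, π ^ d / 2 / ⌈T⌉₊ ≤
      ∑ m ∈ range ⌈T⌉₊, exp (-(m : ℝ)) * (volume (SS d ((m + 1 : ℕ) : ℝ))).toReal := by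
    rw [Finset.sum_const, Finset.card_range, nsmul_eq_mul]
    have : (⌈T⌉₊ : ℝ) ≠ 0 := by positivity
    rw [mul_div_cancel₀ _ this]
    linarith
  obtain ⟨m, _, hm⟩ := Finset.exists_le_of_sum_le (Finset.nonempty_range_iff.2 hM0.ne') hsum
  refine ⟨m + 1, ?_⟩
  have hex := Real.exp_pos (m : ℝ)
  have e4 : exp (m : ℝ) * (exp (-(m : ℝ)) * (volume (SS d ((m + 1 : ℕ) : ℝ))).toReal) =
      (volume (SS d ((m + 1 : ℕ) : ℝ))).toReal := by
    rw [← mul_assoc, ← Real.exp_add, add_neg_cancel, Real.exp_zero, one_mul]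
  have h7 : exp (m : ℝ) * (π ^ d / 2 / ⌈T⌉₊) ≤ (volume (SS d ((m + 1 : ℕ) : ℝ))).toReal := by
    rw [← e4]
    gcongr
  refine le_trans ?_ h7
  have e5 : exp ((m + 1 : ℕ) : ℝ) * π ^ d / (2 * exp 1 * (T + 1)) =
      exp (m : ℝ) * (π ^ d / 2 / (T + 1)) := by
    push_cast
    rw [Real.exp_add]
    have := Real.exp_pos 1
    field_simp
  rw [e5]
  gcongr

end Pool.Agent.H46.PF
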