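import Pool.Agent.H46.PF.Kernel
import Pool.Agent.H46.PF.Count
import Pool.Agent.H46.PF.Perron
import Pool.Agent.H46.PF.Trial
import Pool.Agent.H46.PF.Vol
import Pool.Agent.H46.PF.Avg
import Pool.Agent.H46.PF.Num

/-!
# Products of `d` real linear forms, `d` large: assembly
-/

open Real Finset MeasureTheory
open scoped ComplexConjugate

namespace Pool.Agent.H46.PF

lemma main_wt_nonneg {r : ℝ} (hr : 0 ≤ r) (L : ℕ) (j : ℤ) : 0 ≤ wt r L j := by
  unfold wt
  split_ifs
  · positivity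
  · exact le_rfl

lemma main_mw_nonneg {ι : Type*} [Fintype ι] [DecidableEq ι] {r : ℝ} (hr : 0 ≤ r) (L : ℕ) (m : ι → ℤ) :
    0 ≤ mw r L m := by
  unfold mw
  refine Finset.sum_nonneg fun i _ => ?_
  split_ifs
  · exact main_wt_nonneg hr L _
  · exact le_rfl

lemma main_wt_neg (r : ℝ) (L : ℕ) (j : ℤ) : wt r L (-j) = wt r L j := by
  unfold wt
  simp

lemma main_mw_neg {ι : Type*} [Fintype ι] [DecidableEq ι] (r : ℝ) (L : ℕ) (m : ι → ℤ) :
    mw r L (-m) = mw r L m := by
  unfold mw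
  refine Finset.sum_congr rfl fun i _ => ?_
  simp only [Pi.neg_apply, neg_eq_zero, main_wt_neg]

/-- Perron vector of the weights restricted to a finite set -/
lemma perron_mw {d : ℕ} {r : ℝ} (hr : 0 ≤ r) (L : ℕ) (B : Finset (Fin d → ℤ)) (hB : B.Nonempty) :
    ∃ (Λ : ℝ) (v : (Fin d → ℤ) → ℝ), 0 ≤ Λ ∧ (∀ k, 0 ≤ v k) ∧ (∃ k ∈ B, v k ≠ 0) ∧
      (∀ n ∈ B, ∑ k ∈ B, mw r L (n - k) * v k = Λ * v n) ∧
      ∀ u : (Fin d → ℤ) → ℝ, ∑ n ∈ B, ∑ k ∈ B, u n * mw r L (n - k) * u k ≤ Λ * ∑ k ∈ B, u k ^ 2 := by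
  classical
  have : Nonempty B := ⟨⟨hB.choose, hB.choose_spec⟩⟩
  set M : Matrix B B ℝ := Matrix.of fun n k => mw r L ((n : Fin d → ℤ) - (k : Fin d → ℤ)) with hM
  have hs : M.IsSymm := by
    ext n k
    simp only [hM, Matrix.transpose_apply, Matrix.of_apply]
    rw [← main_mw_neg, neg_sub]
  obtain ⟨Λ, v, hv, hv0, hMv, hR⟩ := perron M hs fun n k => by rw [hM, Matrix.of_apply]; exact main_mw_nonneg hr L _
  obtain ⟨i₀, hi₀⟩ : ∃ i, v i ≠ 0 := by
    by_contra hcon
    push Not at hcon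
    exact hv0 (funext hcon)
  have hmul : ∀ n : B, ∑ k : B, mw r L ((n : Fin d → ℤ) - (k : Fin d → ℤ)) * v k = Λ * v n := by
    intro n
    have := congrFun hMv n
    simpa [Matrix.mulVec, dotProduct, hM] using this
  set v' : (Fin d → ℤ) → ℝ := fun k => if h : k ∈ B then v ⟨k, h⟩ else 0 with hv'
  have hv'B : ∀ k : B, v' k = v k := by
    intro k
    simp only [hv', k.2, dif_pos]
  refine ⟨Λ, v', ?_, ?_, ?_, ?_, ?_⟩
  · have h1 := hmul i₀
    have h2 : 0 < v i₀ := lt_of_le_of_ne (hv i₀) (Ne.symm hi₀)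
    have h3 : 0 ≤ Λ * v i₀ := by
      rw [← h1]
      exact Finset.sum_nonneg fun k _ => mul_nonneg (main_mw_nonneg hr L _) (hv k)
    exact nonneg_of_mul_nonneg_left h3 h2
  · intro k
    simp only [hv']
    split_ifs
    · exact hv _
    · exact le_rfl
  · exact ⟨i₀, i₀.2, by rw [hv'B]; exact hi₀⟩
  · intro n hn
    have h1 := hmul ⟨n, hn⟩
    rw [← Finset.sum_coe_sort B (fun k => mw r L (n - k) * v' k)]
    rw [show v' n = v ⟨n, hn⟩ from hv'B ⟨n, hn⟩, ← h1]
    exact Finset.sum_congr rfl fun k _ => by rw [hv'B]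
  · intro u
    have h1 := hR fun k => u k
    have e1 : ∑ n ∈ B, ∑ k ∈ B, u n * mw r L (n - k) * u k =
        (fun k : B => u k) ⬝ᵥ M.mulVec (fun k : B => u k) := by
      simp only [dotProduct, Matrix.mulVec, hM, Matrix.of_apply, Finset.mul_sum]
      rw [← Finset.sum_coe_sort B]
      refine Finset.sum_congr rfl fun n _ => ?_
      rw [← Finset.sum_coe_sort B]
      refine Finset.sum_congr rfl fun k _ => ?_
      ring
    have e2 : ∑ k ∈ B, u k ^ 2 = (fun k : B => u k) ⬝ᵥ (fun k : B => u k) := by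
      simp only [dotProduct]
      rw [← Finset.sum_coe_sort B]
      refine Finset.sum_congr rfl fun k _ => ?_
      ring
    rw [e1, e2]
    exact h1

/-- number of points in the sublevel set with large differences -/
lemma card_points {d : ℕ} {r : ℝ} (hr : 0 < r) (hr1 : r < 1) (L : ℕ) {B : Finset (Fin d → ℤ)}
    {v : (Fin d → ℤ) → ℝ} (hv : ∀ k, 0 ≤ v k) (hv0 : ∃ k ∈ B, v k ≠ 0) {Λ : ℝ} (hΛ : 0 ≤ Λ)
    (hM : ∀ n ∈ B, ∑ k ∈ B, mw r L (n - k) * v k = Λ * v n) {h ν : ℝ} (hν0 : 0 < ν)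
    (hν : log ν = h - d * ((1 / 2) * log (4 * r)) + d * (r ^ (L + 1) / (1 - r)) - (Λ - 1))
    {P : Type*} [Fintype P] (y : P → Fin d → ℝ) (hy : ∀ p, y p ∈ SS d h)
    (hN : ∀ p q, p ≠ q → ν ≤ |∏ i, (y p i - y q i)|) :
    (Fintype.card P : ℝ) ≤ (d * kap r L 1 + 1) * B.card := by
  have hcard := card_le (ι := Fin d) (fun p i => cay (y p i)) (fun p i => norm_cay _) hr.le L B v hv hv0 hΛ hM ?_
  · simpa using hcard
  intro p q hpq
  have hprod := hN p q hpq
  have hne : ∏ i, (y p i - y q i) ≠ 0 := by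
    intro h0
    rw [h0, abs_zero] at hprod
    linarith
  have hnei : ∀ i, y p i ≠ y q i := by
    intro i hi
    exact hne (Finset.prod_eq_zero (Finset.mem_univ i) (sub_eq_zero.2 hi))
  have h1 : ∀ i, kap r L (cay (y p i) * conj (cay (y q i))) ≤
      -(1 / 2) * log (4 * r) - log |y p i - y q i| + (1 / 2) * log (1 + y p i ^ 2)
        + (1 / 2) * log (1 + y q i ^ 2) + r ^ (L + 1) / (1 - r) := fun i => kap_le hr hr1 L (hnei i)
  have hlog : log |∏ i, (y p i - y q i)| = ∑ i, log |y p i - y q i| := by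
    rw [Finset.abs_prod, Real.log_prod]
    intro i _
    exact abs_ne_zero.2 (sub_ne_zero.2 (hnei i))
  have hlogν : log ν ≤ ∑ i, log |y p i - y q i| := by
    rw [← hlog]
    exact Real.log_le_log hν0 hprod
  have hp : ∑ i, log (1 + y p i ^ 2) ≤ h := hy p
  have hq : ∑ i, log (1 + y q i ^ 2) ≤ h := hy q
  calc ∑ i, kap r L (cay (y p i) * conj (cay (y q i)))
      ≤ ∑ i, (-(1 / 2) * log (4 * r) - log |y p i - y q i| + (1 / 2) * log (1 + y p i ^ 2)
        + (1 / 2) * log (1 + y q i ^ 2) + r ^ (L + 1) / (1 - r)) := Finset.sum_le_sum fun i _ => h1 i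
    _ = -(d * ((1 / 2) * log (4 * r))) - ∑ i, log |y p i - y q i| + (1 / 2) * ∑ i, log (1 + y p i ^ 2)
        + (1 / 2) * ∑ i, log (1 + y q i ^ 2) + d * (r ^ (L + 1) / (1 - r)) := by
        simp only [Finset.sum_add_distrib, Finset.sum_sub_distrib, Finset.sum_const, Finset.card_univ,
          Fintype.card_fin, nsmul_eq_mul, ← Finset.mul_sum]
        ring
    _ ≤ Λ - 1 := by linarith

/-- polynomials are eventually smaller than exponentials -/
lemma eventually_small {η c₁ c₂ c₃ : ℝ} (hη : 0 < η) :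
    ∃ d₀ : ℕ, ∀ d : ℕ, d₀ ≤ d → c₁ * (c₂ * d + 1) * (c₃ * d + 1) < exp (d * η) := by
  have h1 : Filter.Tendsto (fun x : ℝ => x ^ 2 * exp (-(η * x))) Filter.atTop (nhds 0) := by
    have := Real.tendsto_pow_mul_exp_neg_atTop_nhds_zero 2
    have h2 : Filter.Tendsto (fun x : ℝ => η * x) Filter.atTop Filter.atTop :=
      Filter.tendsto_id.const_mul_atTop hη
    have h3 := (this.comp h2).const_mul (1 / η ^ 2)
    rw [mul_zero] at h3
    refine h3.congr fun x => ?_
    simp only [Function.comp]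
    field_simp
  set C : ℝ := |c₁| * (|c₂| + 1) * (|c₃| + 1) with hC
  have hC0 : 0 ≤ C := by positivity
  have h4 : ∀ᶠ x : ℝ in Filter.atTop, C * (x ^ 2 * exp (-(η * x))) < 1 := by
    have := h1.const_mul C
    rw [mul_zero] at this
    exact this.eventually (gt_mem_nhds one_pos)
  have h5 : ∀ᶠ d : ℕ in Filter.atTop, C * ((d : ℝ) ^ 2 * exp (-(η * d))) < 1 :=
    tendsto_natCast_atTop_atTop.eventually h4
  obtain ⟨d₁, hd₁⟩ := Filter.eventually_atTop.1 h5
  refine ⟨max d₁ 1, fun d hd => ?_⟩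
  have hd1 : (1 : ℝ) ≤ d := by exact_mod_cast (le_max_right d₁ 1).trans hd
  have h6 := hd₁ d ((le_max_left d₁ 1).trans hd)
  have h7 : c₁ * (c₂ * d + 1) * (c₃ * d + 1) ≤ C * (d : ℝ) ^ 2 := by
    calc c₁ * (c₂ * d + 1) * (c₃ * d + 1) ≤ |c₁ * (c₂ * d + 1) * (c₃ * d + 1)| := le_abs_self _
      _ = |c₁| * |c₂ * d + 1| * |c₃ * d + 1| := by rw [abs_mul, abs_mul]
      _ ≤ |c₁| * ((|c₂| + 1) * d) * ((|c₃| + 1) * d) := by
          have e : ∀ c : ℝ, |c * d + 1| ≤ (|c| + 1) * d := by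
            intro c
            calc |c * d + 1| ≤ |c * d| + |1| := abs_add_le _ _
              _ = |c| * d + 1 := by rw [abs_mul, abs_one, Nat.abs_cast]
              _ ≤ (|c| + 1) * d := by nlinarith
          have e2 := e c₂
          have e3 := e c₃
          have := abs_nonneg c₁
          gcongr
      _ = C * (d : ℝ) ^ 2 := by rw [hC]; ring
  have h8 : C * (d : ℝ) ^ 2 < exp (d * η) := by
    have h9 : C * (d : ℝ) ^ 2 * exp (-(η * d)) < 1 := by
      calc C * (d : ℝ) ^ 2 * exp (-(η * d)) = C * ((d : ℝ) ^ 2 * exp (-(η * d))) := by ring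
        _ < 1 := h6
    have h10 : 0 < exp (-(η * d)) := exp_pos _
    have h11 : exp (d * η) * exp (-(η * d)) = 1 := by
      rw [← exp_add]
      simp [mul_comm]
    by_contra hcon
    push Not at hcon
    have := mul_le_mul_of_nonneg_right hcon h10.le
    linarith
  linarith

theorem main_aa_pos {K : ℕ} : ∀ j ∈ Finset.Icc (-(K : ℤ)) K, 0 < aa j := by
  intro j _
  unfold aa
  split_ifs with h
  · exact one_pos
  · have : (0 : ℝ) < |(j : ℝ)| := abs_pos.2 (by exact_mod_cast h)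
    positivity

theorem main : ∃ d₀ : ℕ, ∀ d : ℕ, d₀ ≤ d → ∀ g : Matrix (Fin d) (Fin d) ℝ, g.det ≠ 0 →
    ∃ x : Fin d → ℤ, x ≠ 0 ∧ |∏ i, ∑ j, g i j * (x j : ℝ)| * (77 / 10) ^ d ≤ |g.det| := by
  obtain ⟨K, L, r, δ, hr, hr1, hδ, hnum⟩ := numeric
  obtain ⟨d₁, hd₁⟩ := trial (a := aa) (K := K) main_aa_pos hr L hδ
  obtain ⟨H, hH, hvol⟩ := vol_lower
  set η := log (2 * π / (77 / 10)) + (1 / 2) * log r - r ^ (L + 1) / (1 - r) + (EE aa K r L - δ)
      - (WW aa K / Z1 aa K + δ + log (Z1 aa K)) with hη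
  obtain ⟨d₂, hd₂⟩ := eventually_small (η := η) (c₁ := 2 * exp 1 * exp 1) (c₂ := H) (c₃ := kap r L 1) hnum
  refine ⟨max (max d₁ d₂) 1, fun d hd g hg => ?_⟩
  have hdd₁ : d₁ ≤ d := (le_max_left d₁ d₂).trans ((le_max_left _ 1).trans hd)
  have hdd₂ : d₂ ≤ d := (le_max_right d₁ d₂).trans ((le_max_left _ 1).trans hd)
  have hd1 : 1 ≤ d := (le_max_right _ 1).trans hd
  by_contra hcon
  push Not at hcon
  obtain ⟨B, hB, hBc, u, hu, hE⟩ := hd₁ d hdd₁
  obtain ⟨Λ, v, hΛ, hv, hv0, hM, hR⟩ := perron_mw hr.le L B hB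
  obtain ⟨m, hm⟩ := hvol d hd1
  have hΛE : d * (EE aa K r L - δ) ≤ Λ := by
    have h1 := hE.trans (hR u)
    exact le_of_mul_le_mul_right h1 hu
  -- the threshold
  set τ : ℝ := m - d * ((1 / 2) * log (4 * r)) + d * (r ^ (L + 1) / (1 - r)) - (Λ - 1) with hτ
  set ν : ℝ := exp τ with hν
  have hν0 : 0 < ν := exp_pos _
  have hdet : 0 < |g.det| := abs_pos.2 hg
  -- scaling factor
  set q : ℝ := ν * (77 / 10) ^ d / |g.det| with hq
  have hq0 : 0 < q := by positivity
  set s : ℝ := q ^ ((d : ℝ)⁻¹) with hs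
  have hs0 : 0 < s := Real.rpow_pos_of_pos hq0 _
  have hsd : s ^ d = q := by
    rw [hs]
    exact Real.rpow_inv_natCast_pow hq0.le (by omega)
  have hdet' : (s • g).det = s ^ d * g.det := by
    rw [Matrix.det_smul, Fintype.card_fin]
  have hdet'' : |(s • g).det| = ν * (77 / 10) ^ d := by
    rw [hdet', abs_mul, abs_of_pos (by positivity : 0 < s ^ d), hsd, hq]
    field_simp
  have hdne : (s • g).det ≠ 0 := by
    rw [hdet']
    exact mul_ne_zero (by positivity) hg
  have hbig : ∀ x : Fin d → ℤ, x ≠ 0 → ν ≤ |∏ i, (s • g).mulVec (fun j => (x j : ℝ)) i| := by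
    intro x hx
    have h1 := hcon x hx
    have h2 : ∏ i, (s • g).mulVec (fun j => (x j : ℝ)) i = s ^ d * ∏ i, ∑ j, g i j * (x j : ℝ) := by
      have : ∀ i, (s • g).mulVec (fun j => (x j : ℝ)) i = s * ∑ j, g i j * (x j : ℝ) := by
        intro i
        simp only [Matrix.mulVec, dotProduct, Matrix.smul_apply, smul_eq_mul, Finset.mul_sum]
        exact Finset.sum_congr rfl fun j _ => by ring
      rw [Finset.prod_congr rfl fun i _ => this i, Finset.prod_mul_distrib]
      simp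
    rw [h2, abs_mul, abs_of_pos (by positivity : 0 < s ^ d), hsd, hq]
    have h3 : ν * (77 / 10) ^ d / |g.det| * |∏ i, ∑ j, g i j * (x j : ℝ)|
        = ν * (|∏ i, ∑ j, g i j * (x j : ℝ)| * (77 / 10) ^ d) / |g.det| := by ring
    rw [h3, le_div_iff₀ hdet]
    exact mul_le_mul_of_nonneg_left h1.le hν0.le
  set C0 : ℝ := (d * kap r L 1 + 1) * B.card with hC0
  have havg := avg (s • g) hdne (measurableSet_SS d m) (C0 := C0) ?_
  · -- numerical contradiction
    have hk1 : 0 ≤ kap r L 1 := kap_one_nonneg hr.le L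
    have hd0 : (0 : ℝ) < d := by exact_mod_cast hd1
    have h1 : exp m * π ^ d / (2 * exp 1 * (H * d + 1)) ≤ C0 * (ν * (77 / 10) ^ d) := by
      rw [← hdet'']
      exact hm.trans havg
    have hden : 0 < 2 * exp 1 * (H * d + 1) := by positivity
    rw [div_le_iff₀ hden] at h1
    have h2 : C0 ≤ (d * kap r L 1 + 1) * exp (d * (WW aa K / Z1 aa K + δ + log (Z1 aa K))) := by
      rw [hC0]
      gcongr
    have h3 : ν ≤ exp (m - d * ((1 / 2) * log (4 * r)) + d * (r ^ (L + 1) / (1 - r))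
        - (d * (EE aa K r L - δ) - 1)) := by
      rw [hν, hτ]
      refine exp_le_exp.2 ?_
      linarith
    have h4 : exp m * π ^ d ≤ (d * kap r L 1 + 1) * exp (d * (WW aa K / Z1 aa K + δ + log (Z1 aa K)))
        * (exp (m - d * ((1 / 2) * log (4 * r)) + d * (r ^ (L + 1) / (1 - r))
        - (d * (EE aa K r L - δ) - 1)) * (77 / 10) ^ d) * (2 * exp 1 * (H * d + 1)) := by
      refine h1.trans ?_
      gcongr
    have hpi : π ^ d = exp (d * log π) := by
      rw [mul_comm, exp_mul, exp_log pi_pos, rpow_natCast]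
    have h77 : ((77 : ℝ) / 10) ^ d = exp (d * log (77 / 10)) := by
      rw [mul_comm, exp_mul, exp_log (by norm_num), rpow_natCast]
    have h5 : exp (d * η) ≤ 2 * exp 1 * exp 1 * (H * d + 1) * (kap r L 1 * d + 1) := by
      have e1 : log (2 * π / (77 / 10)) = log 2 + log π - log (77 / 10) := by
        rw [log_div (by positivity) (by norm_num), log_mul (by norm_num) pi_pos.ne']
      have e2 : log (4 * r) = 2 * log 2 + log r := by
        rw [log_mul (by norm_num) hr.ne', show (4 : ℝ) = 2 ^ 2 by norm_num, log_pow]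
        norm_num
      set W' := (m : ℝ) + (d * (WW aa K / Z1 aa K + δ + log (Z1 aa K))) +
        (- d * ((1 / 2) * log (4 * r)) + d * (r ^ (L + 1) / (1 - r))
        - (d * (EE aa K r L - δ) - 1)) + d * log (77 / 10) with hW'
      have e3 : (d * kap r L 1 + 1) * exp (d * (WW aa K / Z1 aa K + δ + log (Z1 aa K)))
        * (exp (m - d * ((1 / 2) * log (4 * r)) + d * (r ^ (L + 1) / (1 - r))
        - (d * (EE aa K r L - δ) - 1)) * (77 / 10) ^ d) * (2 * exp 1 * (H * d + 1))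
          = exp W' * ((kap r L 1 * d + 1) * (2 * exp 1 * (H * d + 1))) := by
        rw [h77, hW', exp_add, exp_add, exp_add]
        have e4 : (m : ℝ) - d * ((1 / 2) * log (4 * r)) + d * (r ^ (L + 1) / (1 - r))
            - (d * (EE aa K r L - δ) - 1) = m + (- d * ((1 / 2) * log (4 * r))
              + d * (r ^ (L + 1) / (1 - r)) - (d * (EE aa K r L - δ) - 1)) := by ring
        rw [e4, exp_add]
        ring
      rw [e3, hpi, ← exp_add] at h4
      have e5 : d * η = ((m : ℝ) + d * log π) - W' + 1 := by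
        rw [hη, hW', e1, e2]
        ring
      rw [e5, exp_add, exp_sub]
      have hW0 : 0 < exp W' := exp_pos _
      have h6 : exp (m + d * log π) / exp W' ≤ (kap r L 1 * d + 1) * (2 * exp 1 * (H * d + 1)) := by
        rw [div_le_iff₀ hW0]
        linarith
      calc exp (m + d * log π) / exp W' * exp 1
          ≤ ((kap r L 1 * d + 1) * (2 * exp 1 * (H * d + 1))) * exp 1 :=
            mul_le_mul_of_nonneg_right h6 (exp_pos 1).le
        _ = _ := by ring
    have h7 := hd₂ d hdd₂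
    linarith
  · -- counting in one translate
    intro t P hP
    have h1 := card_points hr hr1 L hv hv0 hΛ hM (h := (m : ℝ)) hν0 (by rw [hν, log_exp]) (P := P)
      (fun p => (s • g).mulVec (fun j => ((p : Fin d → ℤ) j : ℝ)) + t) (fun p => hP p p.2) ?_
    · rw [Fintype.card_coe] at h1
      exact h1
    intro p q hpq
    have hne : (p : Fin d → ℤ) - q ≠ 0 := sub_ne_zero.2 fun h => hpq (Subtype.ext h)
    have h2 := hbig ((p : Fin d → ℤ) - q) hne
    refine h2.trans (le_of_eq ?_)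
    congr 1
    refine Finset.prod_congr rfl fun i _ => ?_
    simp only [Pi.add_apply, Matrix.mulVec, dotProduct, Pi.sub_apply]
    push_cast
    simp only [mul_sub, Finset.sum_sub_distrib]
    ring

end Pool.Agent.H46.PF
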