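import Pool.Agent.H46.PF.Defs

/-!
# Module CHE: typical vectors

`box K d` is `[-K, K]^d`, `xx a k = ∏ a (k i)`, `QQ a k = ∑ i, - log (a (k i) ^ 2) = - log (xx a k ^ 2)`,
`typ a K d c` the set of the `k` in the box with `QQ a k ≤ c`.

* `sum_xx_sq`: `∑_{k ∈ box} xx^2 = Z1^d` (`Finset.prod_univ_sum`, `Finset.sum_pow'` or `Finset.prod_univ_sum` read
  backwards).
* `card_typ`: every `k` in `typ` has `xx^2 ≥ exp (-c)`, so `card * exp (-c) ≤ Z1^d`.
* `tail`: for `t > 0`, `∑_{QQ > c} xx^2 ≤ e^{-t c} ∑ xx^2 e^{t QQ} = e^{-t c} (∑_j a_j^{2 - 2t})^d`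
  (`a_j^2 e^{t (-log a_j^2)}`). With `c = d (W/Z1 + δ)` this is `(e^{-t (W/Z1 + δ)} f(t))^d`,
  `f(t) = ∑ a_j^2 e^{t (-log a_j^2)}`, `f(0) = Z1`, `f'(0) = W`; the function `e^{-t (W/Z1+δ)} f(t)` has value `Z1` and
  derivative `-δ Z1 < 0` at `t = 0`, so it is `< Z1` for some `t > 0`, i.e. `≤ Z1 e^{-c₁}` with `c₁ > 0`.
-/

open Real Finset

namespace Pool.Agent.H46.PF

/-- the box `[-K, K]^d` -/
noncomputable def box (K d : ℕ) : Finset (Fin d → ℤ) :=
  Fintype.piFinset fun _ => Finset.Icc (-(K : ℤ)) K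

/-- product vector -/
noncomputable def xx (a : ℤ → ℝ) {d : ℕ} (k : Fin d → ℤ) : ℝ := ∏ i, a (k i)

/-- information of `k` -/
noncomputable def QQ (a : ℤ → ℝ) {d : ℕ} (k : Fin d → ℤ) : ℝ := ∑ i, -log (a (k i) ^ 2)

open Classical in
/-- typical vectors -/
noncomputable def typ (a : ℤ → ℝ) (K d : ℕ) (c : ℝ) : Finset (Fin d → ℤ) :=
  (box K d).filter fun k => QQ a k ≤ c

theorem sum_xx_sq (a : ℤ → ℝ) (K d : ℕ) : ∑ k ∈ box K d, xx a k ^ 2 = Z1 a K ^ d := by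
  unfold box xx Z1
  have h : ∏ _i : Fin d, ∑ j ∈ Finset.Icc (-(K : ℤ)) K, a j ^ 2 =
      (∑ j ∈ Finset.Icc (-(K : ℤ)) K, a j ^ 2) ^ d := by
    rw [Finset.prod_const, Finset.card_univ, Fintype.card_fin]
  rw [← h, Finset.prod_univ_sum]
  refine Finset.sum_congr rfl fun k _ => ?_
  rw [Finset.prod_pow]

theorem xx_sq_eq {a : ℤ → ℝ} {K : ℕ} (ha : ∀ j ∈ Finset.Icc (-(K : ℤ)) K, 0 < a j) {d : ℕ}
    {k : Fin d → ℤ} (hk : k ∈ box K d) : xx a k ^ 2 = exp (-QQ a k) := by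
  unfold box at hk
  rw [Fintype.mem_piFinset] at hk
  unfold xx QQ
  rw [← Finset.sum_neg_distrib, Real.exp_sum, ← Finset.prod_pow]
  refine Finset.prod_congr rfl fun i _ => ?_
  rw [neg_neg, Real.exp_log (pow_pos (ha _ (hk i)) 2)]

theorem card_typ {a : ℤ → ℝ} {K : ℕ} (ha : ∀ j ∈ Finset.Icc (-(K : ℤ)) K, 0 < a j) (d : ℕ) (c : ℝ) :
    ((typ a K d c).card : ℝ) ≤ exp c * Z1 a K ^ d := by
  have h1 : ((typ a K d c).card : ℝ) * exp (-c) ≤ Z1 a K ^ d := by
    rw [← sum_xx_sq, ← nsmul_eq_mul, ← Finset.sum_const]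
    refine (Finset.sum_le_sum (g := fun k => xx a k ^ 2) fun k hk => ?_).trans
      (Finset.sum_le_sum_of_subset_of_nonneg (Finset.filter_subset _ _) fun k _ _ => sq_nonneg _)
    unfold typ at hk
    rw [Finset.mem_filter] at hk
    rw [xx_sq_eq ha hk.1]
    exact Real.exp_le_exp.mpr (neg_le_neg hk.2)
  calc ((typ a K d c).card : ℝ) = exp c * (((typ a K d c).card : ℝ) * exp (-c)) := by
        rw [mul_comm ((typ a K d c).card : ℝ), ← mul_assoc, ← Real.exp_add, add_neg_cancel,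
          Real.exp_zero, one_mul]
    _ ≤ exp c * Z1 a K ^ d := by
        exact mul_le_mul_of_nonneg_left h1 (Real.exp_pos c).le

theorem Z1_pos {a : ℤ → ℝ} {K : ℕ} (ha : ∀ j ∈ Finset.Icc (-(K : ℤ)) K, 0 < a j) : 0 < Z1 a K := by
  unfold Z1
  exact Finset.sum_pos (fun j hj => pow_pos (ha j hj) 2)
    ⟨0, Finset.mem_Icc.mpr ⟨by omega, by omega⟩⟩

/-- the moment generating function -/
noncomputable def mgf (a : ℤ → ℝ) (K : ℕ) (t : ℝ) : ℝ :=
  ∑ j ∈ Finset.Icc (-(K : ℤ)) K, a j ^ 2 * exp (t * (-log (a j ^ 2)))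

theorem exists_t {a : ℤ → ℝ} {K : ℕ} (ha : ∀ j ∈ Finset.Icc (-(K : ℤ)) K, 0 < a j) {δ : ℝ}
    (hδ : 0 < δ) : ∃ t > 0, exp (-t * (WW a K / Z1 a K + δ)) * mgf a K t < Z1 a K := by
  have hZ := Z1_pos ha
  set b : ℝ := WW a K / Z1 a K + δ with hb
  set h : ℝ → ℝ := fun t => exp (-t * b) * mgf a K t with hh
  have h0 : h 0 = Z1 a K := by
    simp [hh, mgf, Z1]
  have hm0 : mgf a K 0 = Z1 a K := by simp [mgf, Z1]
  have hder : HasDerivAt h (-δ * Z1 a K) 0 := by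
    have h1 : HasDerivAt (fun t : ℝ => exp (-t * b)) (exp (-0 * b) * (-1 * b)) 0 := by
      have := ((hasDerivAt_id (0 : ℝ)).neg.mul_const b).exp
      simpa using this
    have h2 : HasDerivAt (mgf a K) (WW a K) 0 := by
      unfold mgf
      have h3 : ∀ j ∈ Finset.Icc (-(K : ℤ)) K, HasDerivAt
          (fun t : ℝ => a j ^ 2 * exp (t * (-log (a j ^ 2)))) (a j ^ 2 * (-log (a j ^ 2))) 0 := by
        intro j _
        have := (((hasDerivAt_id (0 : ℝ)).mul_const (-log (a j ^ 2))).exp).const_mul (a j ^ 2)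
        simpa using this
      exact HasDerivAt.fun_sum h3
    have h4 := h1.mul h2
    have h5 : exp (-0 * b) * (-1 * b) * mgf a K 0 + exp (-0 * b) * WW a K = -δ * Z1 a K := by
      rw [hm0, hb]
      simp only [neg_zero, zero_mul, Real.exp_zero, one_mul]
      field_simp
      ring
    rw [← h5]
    exact h4
  rw [hasDerivAt_iff_tendsto_slope] at hder
  have hneg : -δ * Z1 a K < 0 := by nlinarith
  have h6 := hder.eventually (gt_mem_nhds hneg)
  have h7 : ∀ᶠ t in nhdsWithin (0 : ℝ) (Set.Ioi 0), slope h 0 t < 0 :=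
    h6.filter_mono (nhdsWithin_mono _ fun x hx => ne_of_gt hx)
  obtain ⟨t, ht1, ht2⟩ := (h7.and self_mem_nhdsWithin).exists
  refine ⟨t, ht2, ?_⟩
  have ht0 : (0 : ℝ) < t := ht2
  rw [slope_def_field, sub_zero, h0] at ht1
  have h8 : h t - Z1 a K < 0 := by
    by_contra hcon
    exact absurd ht1 (not_lt.mpr (div_nonneg (not_lt.mp hcon) ht0.le))
  have h9 : h t < Z1 a K := by linarith
  exact h9

theorem tail {a : ℤ → ℝ} {K : ℕ} (ha : ∀ j ∈ Finset.Icc (-(K : ℤ)) K, 0 < a j) {δ : ℝ} (hδ : 0 < δ) :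
    ∃ c₁ > 0, ∀ d : ℕ, ∑ k ∈ box K d \ typ a K d (d * (WW a K / Z1 a K + δ)), xx a k ^ 2 ≤
      (Z1 a K * exp (-c₁)) ^ d := by
  obtain ⟨t, ht, hlt⟩ := exists_t ha hδ
  have hZ := Z1_pos ha
  set b : ℝ := WW a K / Z1 a K + δ with hb
  set v : ℝ := exp (-t * b) * mgf a K t with hv
  have hm : 0 < mgf a K t := by
    unfold mgf
    exact Finset.sum_pos (fun j hj => mul_pos (pow_pos (ha j hj) 2) (Real.exp_pos _))
      ⟨0, Finset.mem_Icc.mpr ⟨by omega, by omega⟩⟩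
  have hv0 : 0 < v := mul_pos (Real.exp_pos _) hm
  refine ⟨-log (v / Z1 a K), ?_, fun d => ?_⟩
  · have := Real.log_neg (div_pos hv0 hZ) ((div_lt_one hZ).mpr hlt)
    linarith
  · rw [neg_neg, Real.exp_log (div_pos hv0 hZ), mul_div_cancel₀ _ hZ.ne']
    have h1 : ∑ k ∈ box K d \ typ a K d (d * b), xx a k ^ 2 ≤
        ∑ k ∈ box K d, xx a k ^ 2 * exp (t * (QQ a k - d * b)) := by
      refine (Finset.sum_le_sum (g := fun k => xx a k ^ 2 * exp (t * (QQ a k - d * b)))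
        fun k hk => ?_).trans (Finset.sum_le_sum_of_subset_of_nonneg Finset.sdiff_subset
          fun k _ _ => mul_nonneg (sq_nonneg _) (Real.exp_pos _).le)
      rw [Finset.mem_sdiff] at hk
      have h2 : d * b < QQ a k := by
        by_contra hcon
        exact hk.2 (by unfold typ; exact Finset.mem_filter.mpr ⟨hk.1, not_lt.mp hcon⟩)
      have h3 : (1 : ℝ) ≤ exp (t * (QQ a k - d * b)) := by
        rw [← Real.exp_zero]
        exact Real.exp_le_exp.mpr (mul_nonneg ht.le (by linarith))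
      nlinarith [sq_nonneg (xx a k)]
    refine h1.trans (le_of_eq ?_)
    have h4 : v ^ d = ∏ _i : Fin d, ∑ j ∈ Finset.Icc (-(K : ℤ)) K,
        exp (-t * b) * (a j ^ 2 * exp (t * (-log (a j ^ 2)))) := by
      rw [Finset.prod_const, Finset.card_univ, Fintype.card_fin, ← Finset.mul_sum]
      rfl
    rw [h4, Finset.prod_univ_sum]
    unfold box
    refine Finset.sum_congr rfl fun k _ => ?_
    rw [Finset.prod_mul_distrib, Finset.prod_mul_distrib, Finset.prod_const, Finset.card_univ,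
      Fintype.card_fin, ← Real.exp_sum, ← Finset.mul_sum, Finset.prod_pow, ← Real.exp_nat_mul]
    have h5 : exp (t * (QQ a k - d * b)) = exp (d * (-t * b)) *
        exp (t * ∑ i, -log (a (k i) ^ 2)) := by
      rw [← Real.exp_add]
      congr 1
      unfold QQ
      ring
    rw [h5]
    unfold xx
    ring

end Pool.Agent.H46.PF
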