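import Mathlib

/-!
# Products of linear forms in large dimension: definitions

* `cay u`: the real number `u` as a point of the unit circle (Cayley transform);
* `kap r L z`: the truncated kernel `∑ 1 ≤ j ≤ L, r ^ j / j * Re (z ^ j)`, an approximation of `- log |1 - z|`;
* `wt r L j`: its Fourier coefficients;
* `mw r L m`: the corresponding weights on `ℤ^ι` (supported on the multiples of the unit vectors);
* `X z m`: the character `∏ (z i) ^ (m i)`;
* `Z1`, `WW`, `EE`: normalisation, entropy sum and energy of a weight sequence `a` on `[-K, K]`;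
* `aa`: the sequence `a 0 = 1`, `a j = 1 / (5 |j|)`.
-/

open Real Finset
open scoped ComplexConjugate

namespace Pool.Agent.H46.PF

/-- Cayley transform -/
noncomputable def cay (u : ℝ) : ℂ := (1 + u * Complex.I) / (1 - u * Complex.I)

/-- truncated kernel -/
noncomputable def kap (r : ℝ) (L : ℕ) (z : ℂ) : ℝ := ∑ j ∈ Finset.Icc 1 L, r ^ j / j * (z ^ j).re

/-- Fourier coefficients of the kernel -/
noncomputable def wt (r : ℝ) (L : ℕ) (j : ℤ) : ℝ :=
  if j ≠ 0 ∧ j.natAbs ≤ L then r ^ j.natAbs / (2 * j.natAbs) else 0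

/-- weights on `ℤ^ι` -/
noncomputable def mw {ι : Type*} [Fintype ι] [DecidableEq ι] (r : ℝ) (L : ℕ) (m : ι → ℤ) : ℝ :=
  ∑ i, if ∀ i', i' ≠ i → m i' = 0 then wt r L (m i) else 0

/-- characters -/
noncomputable def X {ι : Type*} [Fintype ι] (z : ι → ℂ) (m : ι → ℤ) : ℂ := ∏ i, z i ^ m i

/-- normalisation -/
noncomputable def Z1 (a : ℤ → ℝ) (K : ℕ) : ℝ := ∑ j ∈ Finset.Icc (-(K : ℤ)) K, a j ^ 2

/-- entropy sum -/
noncomputable def WW (a : ℤ → ℝ) (K : ℕ) : ℝ :=
  ∑ j ∈ Finset.Icc (-(K : ℤ)) K, a j ^ 2 * (-log (a j ^ 2))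

/-- energy -/
noncomputable def EE (a : ℤ → ℝ) (K : ℕ) (r : ℝ) (L : ℕ) : ℝ :=
  (∑ j ∈ Finset.Icc (-(K : ℤ)) K, ∑ l ∈ Finset.Icc (-(K : ℤ)) K, a j * a l * wt r L (j - l)) / Z1 a K

/-- the sequence used at the end -/
noncomputable def aa (j : ℤ) : ℝ := if j = 0 then 1 else 1 / (5 * |(j : ℝ)|)

end Pool.Agent.H46.PF
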