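import Pool.Agent.H46.PF.Defs

/-!
# Module EUL: two classical sums

`S = ∑_{k, l ≥ 1} 1/(k l (k + l)) = 2 ζ(3)`:
* summing over `l` first: `1/(k l (k+l)) = (1/k^2) (1/l - 1/(k+l))`, telescoping, so `S = ∑_k H_k / k^2`;
* summing over `n = k + l` first: `1/(k l) = (1/n) (1/k + 1/l)`, so `S = ∑_n (2/n^2) H_(n-1) = 2 ∑_n H_n/n^2 - 2 ζ(3)`.
So `S = 2 S - 2 ζ(3)`. (All terms are nonnegative; work in `ℝ≥0∞` first or prove summability from
`H_k ≤ 2 √k`; or, for the summability, `k + l ≥ 2 √(k l)` so that the term is at most `1/2 (k l)^(-3/2)`.)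
Here `k, l` are shifted by one: `ℕ × ℕ`, `(k + 1) (l + 1) (k + l + 2)`.
-/

open Real Finset

namespace Pool.Agent.H46.PF

/-- harmonic numbers -/
private noncomputable def har (n : ℕ) : ℝ := ∑ i ∈ range n, 1 / ((i : ℝ) + 1)

private theorem har_succ (n : ℕ) : har (n + 1) = har n + 1 / ((n : ℝ) + 1) := by
  unfold har
  rw [sum_range_succ]

private theorem eul_summable :
    Summable (fun p : ℕ × ℕ => 1 / (((p.1 : ℝ) + 1) * (p.2 + 1) * (p.1 + p.2 + 2))) := by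
  have h1 : Summable (fun k : ℕ => 1 / ((k : ℝ) + 1) ^ (3 / 2 : ℝ)) := by
    have h := (Real.summable_one_div_nat_rpow (p := 3 / 2)).2 (by norm_num)
    have h2 := (summable_nat_add_iff 1).2 h
    refine h2.congr ?_
    intro k
    push_cast
    rfl
  have h2 := h1.mul_of_nonneg h1 (fun k => by positivity) (fun k => by positivity)
  refine Summable.of_nonneg_of_le (fun p => by positivity) ?_ h2
  rintro ⟨k, l⟩
  simp only
  have hk : (0 : ℝ) < (k : ℝ) + 1 := by positivity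
  have hl : (0 : ℝ) < (l : ℝ) + 1 := by positivity
  have key : ∀ x : ℝ, 0 < x → x ^ (3 / 2 : ℝ) = x * √x := by
    intro x hx
    rw [Real.sqrt_eq_rpow, show (3 / 2 : ℝ) = 1 + 1 / 2 by norm_num, Real.rpow_add hx, Real.rpow_one]
  rw [key _ hk, key _ hl, one_div_mul_one_div]
  apply one_div_le_one_div_of_le (by positivity)
  have e : ((k : ℝ) + 1) * √((k : ℝ) + 1) * (((l : ℝ) + 1) * √((l : ℝ) + 1)) =
      ((k : ℝ) + 1) * ((l : ℝ) + 1) * (√((k : ℝ) + 1) * √((l : ℝ) + 1)) := by ring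
  rw [e]
  apply mul_le_mul_of_nonneg_left _ (by positivity)
  nlinarith [sq_nonneg (√((k : ℝ) + 1) - √((l : ℝ) + 1)), Real.sq_sqrt hk.le, Real.sq_sqrt hl.le]

/-- telescoping -/
private theorem tele1 (m : ℕ) :
    HasSum (fun l : ℕ => 1 / ((l : ℝ) + m + 1) - 1 / ((l : ℝ) + m + 1 + 1)) (1 / ((m : ℝ) + 1)) := by
  refine (hasSum_iff_tendsto_nat_of_nonneg ?_ _).2 ?_
  · intro l
    rw [sub_nonneg]
    apply one_div_le_one_div_of_le (by positivity)
    linarith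
  · have h1 : (fun n : ℕ => ∑ i ∈ range n, (1 / ((i : ℝ) + m + 1) - 1 / ((i : ℝ) + m + 1 + 1))) =
        fun n : ℕ => 1 / ((m : ℝ) + 1) - 1 / ((n : ℝ) + m + 1) := by
      funext n
      have h := Finset.sum_range_sub' (fun i : ℕ => 1 / ((i : ℝ) + m + 1)) n
      push_cast at h
      rw [zero_add] at h
      rw [← h]
      refine sum_congr rfl fun i _ => ?_
      ring_nf
    rw [h1]
    have h2 : Filter.Tendsto (fun n : ℕ => 1 / ((n : ℝ) + m + 1)) Filter.atTop (nhds 0) := by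
      have h3 : Filter.Tendsto (fun n : ℕ => (n : ℝ) + (m + 1)) Filter.atTop Filter.atTop :=
        Filter.tendsto_atTop_add_const_right _ _ tendsto_natCast_atTop_atTop
      have h4 := h3.inv_tendsto_atTop
      refine h4.congr ?_
      intro n
      simp only [Pi.inv_apply]
      rw [one_div, add_assoc]
    have h5 := h2.const_sub (1 / ((m : ℝ) + 1))
    rw [sub_zero] at h5
    exact h5

private theorem tele (m : ℕ) :
    HasSum (fun l : ℕ => 1 / ((l : ℝ) + 1) - 1 / ((l : ℝ) + m + 1)) (har m) := by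
  induction m with
  | zero => simp [har]
  | succ m ih =>
    rw [har_succ]
    have e : (fun l : ℕ => 1 / ((l : ℝ) + 1) - 1 / ((l : ℝ) + ((m + 1 : ℕ) : ℝ) + 1)) =
        fun l : ℕ => (1 / ((l : ℝ) + 1) - 1 / ((l : ℝ) + m + 1)) +
          (1 / ((l : ℝ) + m + 1) - 1 / ((l : ℝ) + m + 1 + 1)) := by
      funext l
      rw [sub_add_sub_cancel]
      push_cast
      rw [add_assoc ((l : ℝ)) (m : ℝ) 1]
    rw [e]
    exact ih.add (tele1 m)

private theorem row_sum (k : ℕ) :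
    HasSum (fun l : ℕ => 1 / (((k : ℝ) + 1) * (l + 1) * (k + l + 2)))
      (har (k + 1) / ((k : ℝ) + 1) ^ 2) := by
  have h := (tele (k + 1)).mul_left (1 / ((k : ℝ) + 1) ^ 2)
  have e : 1 / ((k : ℝ) + 1) ^ 2 * har (k + 1) = har (k + 1) / ((k : ℝ) + 1) ^ 2 := by ring
  rw [e] at h
  have e2 : (fun l : ℕ => 1 / (((k : ℝ) + 1) * (l + 1) * (k + l + 2))) =
      fun l : ℕ => 1 / ((k : ℝ) + 1) ^ 2 * (1 / ((l : ℝ) + 1) - 1 / ((l : ℝ) + ((k + 1 : ℕ) : ℝ) + 1)) := by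
    funext l
    have h1 : ((k : ℝ) + 1) ≠ 0 := by positivity
    have h2 : ((l : ℝ) + 1) ≠ 0 := by positivity
    have h3 : ((l : ℝ) + (k + 1) + 1) ≠ 0 := by positivity
    have h4 : ((k : ℝ) + l + 2) ≠ 0 := by positivity
    push_cast
    field_simp
    ring
  rw [e2]
  exact h

private theorem zsum : Summable (fun k : ℕ => 1 / ((k : ℝ) + 1) ^ 3) := by
  have h := (Real.summable_one_div_nat_pow (p := 3)).2 (by norm_num)
  have h2 := (summable_nat_add_iff 1).2 h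
  refine h2.congr ?_
  intro k
  push_cast
  rfl

theorem euler_sum : HasSum (fun p : ℕ × ℕ => 1 / (((p.1 : ℝ) + 1) * (p.2 + 1) * (p.1 + p.2 + 2)))
    (2 * ∑' k : ℕ, 1 / ((k : ℝ) + 1) ^ 3) := by
  have hs := eul_summable
  obtain ⟨S, hS⟩ := hs
  have h1 : HasSum (fun k : ℕ => har (k + 1) / ((k : ℝ) + 1) ^ 2) S :=
    hS.prod_fiberwise (fun k => row_sum k)
  have h2 : HasSum (fun n : ℕ => 2 * har (n + 1) / ((n : ℝ) + 2) ^ 2) S := by
    have h3 := (Equiv.hasSum_iff (Finset.HasAntidiagonal.sigmaAntidiagonalEquivProd (A := ℕ))).2 hS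
    have h4 := h3.sigma (fun n => Finset.hasSum (Finset.HasAntidiagonal.antidiagonal n) (fun p : ℕ × ℕ => 1 / (((p.1 : ℝ) + 1) * (p.2 + 1) * (p.1 + p.2 + 2))))
    have e : (fun n : ℕ => 2 * har (n + 1) / ((n : ℝ) + 2) ^ 2) =
        fun n : ℕ => ∑ p ∈ Finset.HasAntidiagonal.antidiagonal n,
          1 / (((p.1 : ℝ) + 1) * ((p.2 : ℝ) + 1) * ((p.1 : ℝ) + p.2 + 2)) := by
      funext n
      have e1 : ∑ p ∈ Finset.HasAntidiagonal.antidiagonal n,
          1 / (((p.1 : ℝ) + 1) * ((p.2 : ℝ) + 1) * ((p.1 : ℝ) + p.2 + 2)) =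
          ∑ p ∈ Finset.HasAntidiagonal.antidiagonal n, (1 / ((n : ℝ) + 2) ^ 2) *
            (1 / ((p.1 : ℝ) + 1) + 1 / ((p.2 : ℝ) + 1)) := by
        refine sum_congr rfl fun p hp => ?_
        have hp2 : (n : ℝ) = (p.1 : ℝ) + p.2 := by
          rw [← Finset.HasAntidiagonal.mem_antidiagonal.1 hp]
          push_cast
          rfl
        rw [hp2]
        have h1 : ((p.1 : ℝ) + 1) ≠ 0 := by positivity
        have h2 : ((p.2 : ℝ) + 1) ≠ 0 := by positivity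
        have h3 : ((p.1 : ℝ) + p.2 + 2) ≠ 0 := by positivity
        field_simp
        ring
      rw [e1, ← mul_sum, sum_add_distrib]
      have e2 : ∑ p ∈ Finset.HasAntidiagonal.antidiagonal n, 1 / ((p.1 : ℝ) + 1) = har (n + 1) := by
        rw [Finset.Nat.sum_antidiagonal_eq_sum_range_succ_mk]
        rfl
      have e3 : ∑ p ∈ Finset.HasAntidiagonal.antidiagonal n, 1 / ((p.2 : ℝ) + 1) = har (n + 1) := by
        rw [← e2]
        exact Finset.Nat.sum_antidiagonal_swap (f := fun p : ℕ × ℕ => 1 / ((p.1 : ℝ) + 1))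
      rw [e2, e3]
      ring
    rw [e]
    exact h4
  have h3 : HasSum (fun n : ℕ => har (n + 2) / ((n : ℝ) + 2) ^ 2) (S - 1) := by
    have h := (hasSum_nat_add_iff' 1).2 h1
    have e1 : S - ∑ i ∈ range 1, har (i + 1) / ((i : ℝ) + 1) ^ 2 = S - 1 := by
      simp [har]
    rw [e1] at h
    have e2 : (fun n : ℕ => har (n + 2) / ((n : ℝ) + 2) ^ 2) =
        fun n : ℕ => har (n + 1 + 1) / (((n + 1 : ℕ) : ℝ) + 1) ^ 2 := by
      funext n
      push_cast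
      rw [add_assoc (n : ℝ) 1 1]
      norm_num
    rw [e2]
    exact h
  have h4 : HasSum (fun n : ℕ => 1 / ((n : ℝ) + 2) ^ 3) ((∑' k : ℕ, 1 / ((k : ℝ) + 1) ^ 3) - 1) := by
    have h := (hasSum_nat_add_iff' 1).2 zsum.hasSum
    have e1 : (∑' k : ℕ, 1 / ((k : ℝ) + 1) ^ 3) - ∑ i ∈ range 1, 1 / ((i : ℝ) + 1) ^ 3 =
        (∑' k : ℕ, 1 / ((k : ℝ) + 1) ^ 3) - 1 := by
      simp
    rw [e1] at h
    have e2 : (fun n : ℕ => 1 / ((n : ℝ) + 2) ^ 3) =
        fun n : ℕ => 1 / (((n + 1 : ℕ) : ℝ) + 1) ^ 3 := by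
      funext n
      push_cast
      rw [add_assoc (n : ℝ) 1 1]
      norm_num
    rw [e2]
    exact h
  have h5 := (h3.sub h4).mul_left 2
  have h6 : HasSum (fun n : ℕ => 2 * har (n + 1) / ((n : ℝ) + 2) ^ 2)
      (2 * ((S - 1) - ((∑' k : ℕ, 1 / ((k : ℝ) + 1) ^ 3) - 1))) := by
    have e : (fun n : ℕ => 2 * har (n + 1) / ((n : ℝ) + 2) ^ 2) =
        fun n : ℕ => 2 * (har (n + 2) / ((n : ℝ) + 2) ^ 2 - 1 / ((n : ℝ) + 2) ^ 3) := by
      funext n
      rw [har_succ (n + 1)]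
      have h1 : ((n : ℝ) + 2) ≠ 0 := by positivity
      have h2 : (((n + 1 : ℕ) : ℝ) + 1) = (n : ℝ) + 2 := by
        push_cast
        ring
      rw [h2]
      field_simp
      ring
    rw [e]
    exact h5
  have h7 := h2.unique h6
  have h8 : S = 2 * ∑' k : ℕ, 1 / ((k : ℝ) + 1) ^ 3 := by linarith
  rw [← h8]
  exact hS

/-- `ζ(3) ≥ 1.2016` (sum of ten terms, and tail `∑_{k > 10} 1/k^3 ≥ 1/(2 * 11^2)`) -/
theorem zeta3_ge : (12016 / 10000 : ℝ) ≤ ∑' k : ℕ, 1 / ((k : ℝ) + 1) ^ 3 := by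
  have h1 : ∀ N : ℕ, (∑ k ∈ range 10, 1 / ((k : ℝ) + 1) ^ 3) + 1 / (2 * 121) -
      1 / (2 * ((N : ℝ) + 11) ^ 2) ≤ ∑ k ∈ range (10 + N), 1 / ((k : ℝ) + 1) ^ 3 := by
    intro N
    induction N with
    | zero => norm_num
    | succ N ih =>
      rw [← add_assoc, Finset.sum_range_succ (fun k : ℕ => 1 / ((k : ℝ) + 1) ^ 3) (10 + N)]
      have h2 : 1 / (2 * ((N : ℝ) + 11) ^ 2) - 1 / (2 * (((N + 1 : ℕ) : ℝ) + 11) ^ 2) ≤
          1 / (((10 + N : ℕ) : ℝ) + 1) ^ 3 := by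
        push_cast
        have h3 : (0 : ℝ) ≤ N := Nat.cast_nonneg N
        have e1 : (10 : ℝ) + N + 1 = N + 11 := by ring
        have e2 : (N : ℝ) + 1 + 11 = (N + 11) + 1 := by ring
        rw [e1, e2]
        have hx : (0 : ℝ) < (N : ℝ) + 11 := by positivity
        generalize (N : ℝ) + 11 = x at hx
        rw [div_sub_div _ _ (by positivity) (by positivity), div_le_div_iff₀ (by positivity) (by positivity)]
        have e3 : 1 * (2 * x ^ 2) * (2 * (x + 1) ^ 2) - (1 * (2 * (x + 1) ^ 2) - 2 * x ^ 2 * 1) * x ^ 3 =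
          2 * x ^ 2 * (2 * (x + 1) ^ 2 - (2 * x + 1) * x) := by ring
        have h4 : 0 ≤ 2 * x ^ 2 * (2 * (x + 1) ^ 2 - (2 * x + 1) * x) := by
          apply mul_nonneg (by positivity)
          nlinarith
        nlinarith
      linarith
  have h3 : ∀ M : ℕ, ∑ k ∈ range M, 1 / ((k : ℝ) + 1) ^ 3 ≤ ∑' k : ℕ, 1 / ((k : ℝ) + 1) ^ 3 :=
    fun M => zsum.sum_le_tsum (range M) (fun k _ => by positivity)
  have h2 : ∀ N : ℕ, (∑ k ∈ range 10, 1 / ((k : ℝ) + 1) ^ 3) + 1 / (2 * 121) -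
      1 / (2 * ((N : ℝ) + 11) ^ 2) ≤ ∑' k : ℕ, 1 / ((k : ℝ) + 1) ^ 3 := fun N => (h1 N).trans (h3 _)
  refine le_trans ?_ (h2 1000)
  norm_num [sum_range_succ]

end Pool.Agent.H46.PF
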