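import Pool.Agent.H46.PF.Defs

/-!
# Module KER: the kernel on the circle

* `cay u = (1 + iu)/(1 - iu)` has modulus 1 (numerator and denominator are conjugate).
* `kap_le`: put `w = cay s * conj (cay t)`, `|w| = 1`. Then
  `|1 - r w|^2 = (1 - r)^2 + r |1 - w|^2` and `|1 - w| = |cay s - cay t|`,
  `cay s - cay t = 2 i (s - t) / ((1 - i s)(1 - i t))`, so `|1 - w|^2 = 4 (s-t)^2 / ((1+s^2)(1+t^2))`.
  Hence `-log |1 - r w| ≤ -1/2 log (4r) - log|s-t| + 1/2 log(1+s^2) + 1/2 log(1+t^2)`.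
  The series `∑ z^n/n = -log(1 - z)` for `|z| < 1` is `Complex.hasSum_taylorSeries_neg_log`; take `z = r w` and
  real parts: `∑_{j ≥ 1} r^j/j Re(w^j) = -log|1 - r w|` (`Complex.log_re`). The tail of index `> L` is at least
  `- ∑_{j > L} r^j = - r^(L+1)/(1-r)`.
-/

open Real Finset
open scoped ComplexConjugate

namespace Pool.Agent.H46.PF

lemma one_sub_ne (u : ℝ) : (1 : ℂ) - u * Complex.I ≠ 0 := by
  intro h
  have := congrArg Complex.re h
  simp at this

theorem norm_cay (u : ℝ) : ‖cay u‖ = 1 := by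
  unfold cay
  rw [norm_div]
  have h1 : (1 : ℂ) - u * Complex.I = conj (1 + u * Complex.I) := by
    simp [map_add, map_mul, sub_eq_add_neg]
  have h2 : ‖(1 : ℂ) - u * Complex.I‖ = ‖(1 : ℂ) + u * Complex.I‖ := by
    rw [h1, Complex.norm_conj]
  rw [h2]
  refine div_self ?_
  rw [← h2]
  exact norm_ne_zero_iff.2 (one_sub_ne u)

lemma cay_eq (u : ℝ) : cay u = (((1 - u ^ 2) / (1 + u ^ 2) : ℝ) : ℂ) + ((2 * u / (1 + u ^ 2) : ℝ) : ℂ) * Complex.I := by
  unfold cay
  have h0 : (1 + (u : ℂ) ^ 2) ≠ 0 := by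
    have h : (1 + u ^ 2 : ℝ) ≠ 0 := by positivity
    exact_mod_cast h
  rw [div_eq_iff (one_sub_ne u)]
  push_cast
  field_simp
  ring_nf
  rw [Complex.I_sq]
  ring

lemma re_w (s t : ℝ) : (cay s * conj (cay t)).re = 1 - 2 * (s - t) ^ 2 / ((1 + s ^ 2) * (1 + t ^ 2)) := by
  rw [cay_eq, cay_eq]
  have hs : (1 + s ^ 2 : ℝ) ≠ 0 := by positivity
  have ht : (1 + t ^ 2 : ℝ) ≠ 0 := by positivity
  simp only [map_add, map_mul, Complex.conj_ofReal, Complex.conj_I, Complex.mul_re, Complex.add_re,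
    Complex.add_im, Complex.mul_im, Complex.ofReal_re, Complex.ofReal_im, Complex.I_re, Complex.I_im,
    Complex.neg_re, Complex.neg_im]
  field_simp
  ring

theorem kap_le {r : ℝ} (hr : 0 < r) (hr1 : r < 1) (L : ℕ) {s t : ℝ} (h : s ≠ t) :
    kap r L (cay s * conj (cay t)) ≤
      -(1 / 2) * log (4 * r) - log |s - t| + (1 / 2) * log (1 + s ^ 2) + (1 / 2) * log (1 + t ^ 2)
        + r ^ (L + 1) / (1 - r) := by
  set w : ℂ := cay s * conj (cay t) with hw
  have hwn : ‖w‖ = 1 := by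
    rw [hw, norm_mul, Complex.norm_conj, norm_cay, norm_cay, one_mul]
  have hz : ‖(r : ℂ) * w‖ < 1 := by
    rw [norm_mul, hwn, mul_one, Complex.norm_real, Real.norm_eq_abs, abs_of_pos hr]
    exact hr1
  have hsum := Complex.hasSum_taylorSeries_neg_log hz
  have hre := Complex.hasSum_re hsum
  set f : ℕ → ℝ := fun n => r ^ n / n * (w ^ n).re with hf
  have hfe : ∀ n : ℕ, (((r : ℂ) * w) ^ n / (n : ℂ)).re = f n := by
    intro n
    rw [hf, mul_pow]
    have e : (r : ℂ) ^ n * w ^ n / (n : ℂ) = ((r ^ n / n : ℝ) : ℂ) * w ^ n := by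
      push_cast
      ring
    rw [e, Complex.re_ofReal_mul]
  simp only [hfe] at hre
  rw [Complex.neg_re, Complex.log_re] at hre
  have hsm : Summable f := hre.summable
  have hf0 : f 0 = 0 := by simp [hf]
  have hkap : kap r L w = ∑ j ∈ Finset.range (L + 1), f j := by
    rw [Finset.sum_range_succ', hf0, add_zero, kap, Finset.range_eq_Ico, Finset.sum_Ico_add' f 0 L 1]
    refine Finset.sum_congr ?_ fun j _ => rfl
    ext j
    simp only [Finset.mem_Icc, Finset.mem_Ico]
    omega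
  have htail := hsm.sum_add_tsum_nat_add (L + 1)
  rw [hre.tsum_eq] at htail
  have hfb : ∀ n, -(r ^ n) ≤ f n := by
    intro n
    rcases Nat.eq_zero_or_pos n with h0 | h0
    · subst h0
      rw [hf0]
      simp
    have h1 : |(w ^ n).re| ≤ 1 := by
      refine (Complex.abs_re_le_norm _).trans ?_
      rw [norm_pow, hwn, one_pow]
    have h2 : |f n| ≤ r ^ n := by
      rw [hf]
      simp only
      rw [abs_mul, abs_of_nonneg (by positivity)]
      have h3 : r ^ n / (n : ℝ) ≤ r ^ n := by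
        refine div_le_self (by positivity) ?_
        exact_mod_cast h0
      calc r ^ n / (n : ℝ) * |(w ^ n).re| ≤ r ^ n * 1 := by gcongr
        _ = r ^ n := mul_one _
    linarith [neg_abs_le (f n)]
  have hgeo : HasSum (fun n : ℕ => r ^ (n + (L + 1))) (r ^ (L + 1) / (1 - r)) := by
    have h1 := (hasSum_geometric_of_lt_one hr.le hr1).mul_right (r ^ (L + 1))
    rw [show (1 - r)⁻¹ * r ^ (L + 1) = r ^ (L + 1) / (1 - r) by field_simp] at h1
    refine h1.congr_fun ?_ |> fun h => h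
    intro n
    rw [pow_add]
  have htl : -(r ^ (L + 1) / (1 - r)) ≤ ∑' n, f (n + (L + 1)) := by
    rw [← hgeo.tsum_eq, ← tsum_neg]
    exact Summable.tsum_le_tsum (fun n => hfb _) hgeo.summable.neg ((summable_nat_add_iff (L + 1)).2 hsm)
  have hlog : -(1 / 2) * log (4 * r) - log |s - t| + (1 / 2) * log (1 + s ^ 2) + (1 / 2) * log (1 + t ^ 2)
      ≥ -log ‖1 - (r : ℂ) * w‖ := by
    have hst : 0 < |s - t| := abs_pos.2 (sub_ne_zero.2 h)
    have hn : ‖1 - (r : ℂ) * w‖ ^ 2 = 1 - 2 * r * w.re + r ^ 2 := by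
      rw [← Complex.normSq_eq_norm_sq, Complex.normSq_sub, map_one, Complex.normSq_mul,
        Complex.normSq_ofReal, Complex.normSq_eq_norm_sq w, hwn]
      simp only [map_mul, Complex.conj_ofReal, one_mul, Complex.mul_re, Complex.ofReal_re,
        Complex.ofReal_im, Complex.conj_re, Complex.conj_im]
      ring
    have hge : 4 * r * |s - t| ^ 2 / ((1 + s ^ 2) * (1 + t ^ 2)) ≤ ‖1 - (r : ℂ) * w‖ ^ 2 := by
      rw [hn, hw, re_w, sq_abs]
      have e : 1 - 2 * r * (1 - 2 * (s - t) ^ 2 / ((1 + s ^ 2) * (1 + t ^ 2))) + r ^ 2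
          = (1 - r) ^ 2 + 4 * r * (s - t) ^ 2 / ((1 + s ^ 2) * (1 + t ^ 2)) := by ring
      rw [e]
      linarith [sq_nonneg (1 - r)]
    have hpos : 0 < 4 * r * |s - t| ^ 2 / ((1 + s ^ 2) * (1 + t ^ 2)) := by positivity
    have h1 := Real.log_le_log hpos hge
    have a1 : Real.log (4 * r * |s - t| ^ 2 / ((1 + s ^ 2) * (1 + t ^ 2)))
        = Real.log (4 * r) + 2 * Real.log |s - t| - (Real.log (1 + s ^ 2) + Real.log (1 + t ^ 2)) := by
      rw [Real.log_div (by positivity) (by positivity), Real.log_mul (x := 4 * r) (by positivity) (by positivity),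
        Real.log_mul (x := 1 + s ^ 2) (by positivity) (by positivity), Real.log_pow]
      norm_num
    rw [a1, Real.log_pow] at h1
    have h2 : ((2 : ℕ) : ℝ) = 2 := by norm_num
    rw [h2] at h1
    linarith
  rw [hkap]
  linarith

end Pool.Agent.H46.PF
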