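import Pool.Agent.H46.PF.Defs

/-!
# Module LP: the linear programming inequality

Write `ζ i = z p i * conj (z q i)` (modulus 1), `X_m = X ζ m`; `X_(m+n) = X_m X_n` (`zpow_add₀`), `conj X_m = X_(-m)`.

* `sum_kap`: `∑ i, kap (ζ i) = ∑ i, ∑ j ∈ Icc (-L) L, wt j * Re (ζ i ^ j)` (the terms `j` and `-j` are conjugate).
* With `φ = ∑ k ∈ B, v k X_k`:
  `(∑ i, kap (ζ i) - lam) |φ|^2 = Re (conj φ * (∑_{i,j,k} wt j v k X_(k + j e_i) - lam φ))`.
* For all `n l`: `∑ p q, X_n conj X_l = |∑ p, ∏ i (z p i)^(n i - l i)|^2 =: S n l ≥ 0` (real), `S n n = (card P)^2`.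
* So the right side of `lp_bound` is
  `∑_{l ∈ B} v l (∑_{i, j, k ∈ B} wt j v k S (k + j e_i) l - lam ∑_{k ∈ B} v k S k l)`;
  drop the terms with `k + j e_i ∉ B`; the terms with `k + j e_i = n ∈ B` add up to
  `∑_{k ∈ B} mw (n - k) v k = Λ v n` (`mw (n - k)` is the sum of `wt j` over the pairs `(i, j)`, `j ≠ 0`, with
  `n - k = j e_i`). So it is at least
  `(Λ - lam) ∑_{l, n ∈ B} v l v n S n l ≥ (Λ - lam) ∑_n (v n)^2 (card P)^2`.
-/

open Real Finset
open scoped ComplexConjugate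

namespace Pool.Agent.H46.PF

theorem sum_Icc_symm {M : Type*} [AddCommMonoid M] (f : ℤ → M) (N : ℕ) :
    ∑ j ∈ Icc (-(N : ℤ)) N, f j = f 0 + ∑ j ∈ Icc 1 N, (f (j : ℤ) + f (-(j : ℤ))) := by
  induction N with
  | zero => simp
  | succ N ih =>
    have h1 : Icc (-((N + 1 : ℕ) : ℤ)) ((N + 1 : ℕ) : ℤ)
        = insert ((N + 1 : ℕ) : ℤ) (insert (-((N + 1 : ℕ) : ℤ)) (Icc (-(N : ℤ)) N)) := by
      ext x
      simp only [Finset.mem_Icc, Finset.mem_insert]
      omega
    rw [h1, Finset.sum_insert, Finset.sum_insert, ih, Finset.sum_Icc_succ_top (by omega)]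
    · abel
    · simp only [Finset.mem_Icc]
      omega
    · simp only [Finset.mem_Icc, Finset.mem_insert]
      omega

theorem wt_nonneg {r : ℝ} (hr : 0 ≤ r) (L : ℕ) (j : ℤ) : 0 ≤ wt r L j := by
  unfold wt
  split_ifs
  · positivity
  · exact le_rfl

theorem kap_eq (r : ℝ) (L : ℕ) {ζ : ℂ} (hζ : ‖ζ‖ = 1) :
    ((kap r L ζ : ℝ) : ℂ) = ∑ j ∈ Icc (-(L : ℤ)) L, (wt r L j : ℂ) * ζ ^ j := by
  rw [sum_Icc_symm]
  have h0 : wt r L 0 = 0 := by simp [wt]
  rw [h0]
  simp only [Complex.ofReal_zero, zero_mul, zero_add]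
  unfold kap
  rw [Complex.ofReal_sum]
  refine Finset.sum_congr rfl fun j hj => ?_
  rw [Finset.mem_Icc] at hj
  have hj0 : (j : ℤ) ≠ 0 := by omega
  have h1 : wt r L (j : ℤ) = r ^ j / (2 * j) := by
    unfold wt
    rw [if_pos ⟨hj0, by simpa using hj.2⟩]
    simp
  have h2 : wt r L (-(j : ℤ)) = r ^ j / (2 * j) := by
    unfold wt
    rw [if_pos ⟨by omega, by simpa using hj.2⟩]
    simp
  have h3 : ζ ^ (-(j : ℤ)) = conj (ζ ^ (j : ℤ)) := by
    rw [zpow_neg]
    refine Complex.inv_eq_conj ?_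
    rw [norm_zpow, hζ, one_zpow]
  rw [h1, h2, h3, zpow_natCast, ← mul_add, Complex.add_conj]
  push_cast
  have hjc : (j : ℂ) ≠ 0 := by
    exact_mod_cast hj0
  field_simp

theorem X_add {ι : Type*} [Fintype ι] {z : ι → ℂ} (hz : ∀ i, z i ≠ 0) (m n : ι → ℤ) :
    X z (m + n) = X z m * X z n := by
  unfold X
  rw [← Finset.prod_mul_distrib]
  refine Finset.prod_congr rfl fun i _ => ?_
  rw [Pi.add_apply, zpow_add₀ (hz i)]

theorem X_single {ι : Type*} [Fintype ι] [DecidableEq ι] (z : ι → ℂ) (i : ι) (j : ℤ) :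
    X z (Pi.single i j) = z i ^ j := by
  unfold X
  rw [Finset.prod_eq_single i]
  · simp
  · intro b _ hb
    rw [Pi.single_eq_of_ne hb, zpow_zero]
  · intro h
    exact absurd (Finset.mem_univ i) h

theorem mw_eq {ι : Type*} [Fintype ι] [DecidableEq ι] (r : ℝ) (L : ℕ) (m : ι → ℤ) :
    mw r L m = ∑ i, ∑ j ∈ Icc (-(L : ℤ)) L, if Pi.single i j = m then wt r L j else 0 := by
  unfold mw
  refine Finset.sum_congr rfl fun i _ => ?_
  split_ifs with h
  · have h1 : Pi.single i (m i) = m := by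
      funext i'
      by_cases h2 : i' = i
      · subst h2
        simp
      · rw [Pi.single_eq_of_ne h2, h i' h2]
    have h3 : ∀ j : ℤ, (Pi.single i j = m) ↔ j = m i := by
      intro j
      constructor
      · intro h4
        rw [← h4]
        simp
      · intro h4
        rw [h4, h1]
    simp only [h3]
    rw [Finset.sum_ite_eq']
    split_ifs with h5
    · rfl
    · unfold wt
      rw [if_neg]
      intro h6
      apply h5
      rw [Finset.mem_Icc]
      omega
  · symm
    refine Finset.sum_eq_zero fun j _ => ?_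
    rw [if_neg]
    intro h1
    apply h
    intro i' hi'
    rw [← h1, Pi.single_eq_of_ne hi']

theorem X_mul_conj {ι : Type*} [Fintype ι] {x y : ι → ℂ} (hx : ∀ i, ‖x i‖ = 1) (hy : ∀ i, ‖y i‖ = 1)
    (n l : ι → ℤ) :
    X (fun i => x i * conj (y i)) n * conj (X (fun i => x i * conj (y i)) l)
      = X x (n - l) * conj (X y (n - l)) := by
  have hx0 : ∀ i, x i ≠ 0 := fun i h => by
    have := hx i
    rw [h, norm_zero] at this
    exact zero_ne_one this
  have hy0 : ∀ i, y i ≠ 0 := fun i h => by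
    have := hy i
    rw [h, norm_zero] at this
    exact zero_ne_one this
  unfold X
  rw [map_prod, map_prod, ← Finset.prod_mul_distrib, ← Finset.prod_mul_distrib]
  refine Finset.prod_congr rfl fun i _ => ?_
  have h1 : ∀ (w : ℂ) (k : ℤ), ‖w‖ = 1 → conj (w ^ k) = w ^ (-k) := by
    intro w k hw
    rw [zpow_neg]
    symm
    refine Complex.inv_eq_conj ?_
    rw [norm_zpow, hw, one_zpow]
  have h2 : ‖x i * conj (y i)‖ = 1 := by
    rw [norm_mul, hx i, Complex.norm_conj, hy i, one_mul]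
  rw [h1 _ _ h2, h1 _ _ (hy i), Pi.sub_apply]
  have h3 : conj (y i) = (y i)⁻¹ := (Complex.inv_eq_conj (hy i)).symm
  have h4 : x i * conj (y i) ≠ 0 := by
    rw [h3]
    exact mul_ne_zero (hx0 i) (inv_ne_zero (hy0 i))
  rw [← zpow_add₀ h4, mul_zpow, h3, inv_zpow', ← sub_eq_add_neg]

/-- the sum over the pairs of points -/
theorem sum_pairs {ι : Type*} [Fintype ι] {P : Type*} [Fintype P] (z : P → ι → ℂ)
    (hz : ∀ p i, ‖z p i‖ = 1) (n l : ι → ℤ) :
    ∑ p, ∑ q, X (fun i => z p i * conj (z q i)) n * conj (X (fun i => z p i * conj (z q i)) l)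
      = ((‖∑ p, X (z p) (n - l)‖ ^ 2 : ℝ) : ℂ) := by
  rw [← Complex.normSq_eq_norm_sq, ← Complex.mul_conj, map_sum, Finset.sum_mul]
  refine Finset.sum_congr rfl fun p _ => ?_
  rw [Finset.mul_sum]
  refine Finset.sum_congr rfl fun q _ => ?_
  exact X_mul_conj (hz p) (hz q) n l

theorem lp_bound {ι : Type*} [Fintype ι] [DecidableEq ι] {P : Type*} [Fintype P] (z : P → ι → ℂ)
    (hz : ∀ p i, ‖z p i‖ = 1) {r : ℝ} (hr : 0 ≤ r) (L : ℕ) (B : Finset (ι → ℤ)) (v : (ι → ℤ) → ℝ)
    (hv : ∀ k, 0 ≤ v k) {Λ lam : ℝ} (hlam : lam ≤ Λ)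
    (hM : ∀ n ∈ B, ∑ k ∈ B, mw r L (n - k) * v k = Λ * v n) :
    (Λ - lam) * (Fintype.card P : ℝ) ^ 2 * ∑ k ∈ B, v k ^ 2 ≤
      ∑ p, ∑ q, (∑ i, kap r L (z p i * conj (z q i)) - lam) *
        ‖∑ k ∈ B, (v k : ℂ) * X (fun i => z p i * conj (z q i)) k‖ ^ 2 := by
  classical
  set S : (ι → ℤ) → ℝ := fun m => ‖∑ p, X (z p) m‖ ^ 2 with hSdef
  have hS0 : ∀ m, 0 ≤ S m := fun m => by positivity
  have hS1 : S 0 = (Fintype.card P : ℝ) ^ 2 := by
    simp [hSdef, X]
  set J : Finset ℤ := Icc (-(L : ℤ)) L with hJ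
  have hnorm : ∀ p q i, ‖z p i * conj (z q i)‖ = 1 := by
    intro p q i
    rw [norm_mul, hz, Complex.norm_conj, hz, one_mul]
  have hne : ∀ p q i, z p i * conj (z q i) ≠ 0 := by
    intro p q i h
    have := hnorm p q i
    rw [h, norm_zero] at this
    exact zero_ne_one this
  -- the right side
  have hR : (∑ p, ∑ q, (∑ i, kap r L (z p i * conj (z q i)) - lam) *
        ‖∑ k ∈ B, (v k : ℂ) * X (fun i => z p i * conj (z q i)) k‖ ^ 2)
      = ∑ l ∈ B, ∑ k ∈ B, v l * v k *
          ((∑ i, ∑ j ∈ J, wt r L j * S (k + Pi.single i j - l)) - lam * S (k - l)) := by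
    apply Complex.ofReal_injective
    have h1 : ∀ p q, (((∑ i, kap r L (z p i * conj (z q i)) - lam) *
        ‖∑ k ∈ B, (v k : ℂ) * X (fun i => z p i * conj (z q i)) k‖ ^ 2 : ℝ) : ℂ)
        = ∑ l ∈ B, ∑ k ∈ B, (v l * v k : ℂ) *
          ((∑ i, ∑ j ∈ J, (wt r L j : ℂ) * (X (fun i => z p i * conj (z q i)) (k + Pi.single i j) *
            conj (X (fun i => z p i * conj (z q i)) l)))
            - lam * (X (fun i => z p i * conj (z q i)) k *
            conj (X (fun i => z p i * conj (z q i)) l))) := by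
      intro p q
      have h2 : ((‖∑ k ∈ B, (v k : ℂ) * X (fun i => z p i * conj (z q i)) k‖ ^ 2 : ℝ) : ℂ)
          = ∑ l ∈ B, ∑ k ∈ B, (v l * v k : ℂ) * (X (fun i => z p i * conj (z q i)) k *
            conj (X (fun i => z p i * conj (z q i)) l)) := by
        rw [← Complex.normSq_eq_norm_sq, ← Complex.mul_conj, map_sum, Finset.sum_mul_sum,
          Finset.sum_comm]
        refine Finset.sum_congr rfl fun l _ => Finset.sum_congr rfl fun k _ => ?_
        rw [map_mul, Complex.conj_ofReal]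
        ring
      rw [Complex.ofReal_mul, h2, Complex.ofReal_sub, Complex.ofReal_sum, Finset.mul_sum]
      refine Finset.sum_congr rfl fun l _ => ?_
      rw [Finset.mul_sum]
      refine Finset.sum_congr rfl fun k _ => ?_
      have h3 : ∀ i, ((kap r L (z p i * conj (z q i)) : ℝ) : ℂ)
          = ∑ j ∈ J, (wt r L j : ℂ) * (z p i * conj (z q i)) ^ j := fun i => kap_eq r L (hnorm p q i)
      rw [Finset.sum_congr rfl fun i _ => h3 i]
      have h4 : ∀ i j, X (fun i => z p i * conj (z q i)) (k + Pi.single i j)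
          = X (fun i => z p i * conj (z q i)) k * (z p i * conj (z q i)) ^ j := by
        intro i j
        rw [X_add (hne p q), X_single]
      simp only [h4]
      have h5 : ∑ i, ∑ j ∈ J, (wt r L j : ℂ) * (X (fun i => z p i * conj (z q i)) k *
          (z p i * conj (z q i)) ^ j * conj (X (fun i => z p i * conj (z q i)) l))
          = (∑ i, ∑ j ∈ J, (wt r L j : ℂ) * (z p i * conj (z q i)) ^ j) *
            (X (fun i => z p i * conj (z q i)) k * conj (X (fun i => z p i * conj (z q i)) l)) := by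
        rw [Finset.sum_mul]
        refine Finset.sum_congr rfl fun i _ => ?_
        rw [Finset.sum_mul]
        refine Finset.sum_congr rfl fun j _ => ?_
        ring
      rw [h5]
      ring
    have h6 : ((∑ p, ∑ q, (∑ i, kap r L (z p i * conj (z q i)) - lam) *
        ‖∑ k ∈ B, (v k : ℂ) * X (fun i => z p i * conj (z q i)) k‖ ^ 2 : ℝ) : ℂ)
        = ∑ p, ∑ q, ∑ l ∈ B, ∑ k ∈ B, (v l * v k : ℂ) *
          ((∑ i, ∑ j ∈ J, (wt r L j : ℂ) * (X (fun i => z p i * conj (z q i)) (k + Pi.single i j) *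
            conj (X (fun i => z p i * conj (z q i)) l)))
            - lam * (X (fun i => z p i * conj (z q i)) k *
            conj (X (fun i => z p i * conj (z q i)) l))) := by
      rw [Complex.ofReal_sum]
      refine Finset.sum_congr rfl fun p _ => ?_
      rw [Complex.ofReal_sum]
      exact Finset.sum_congr rfl fun q _ => h1 p q
    rw [h6]
    have h7 : ∀ F : P → P → (ι → ℤ) → (ι → ℤ) → ℂ, ∑ p, ∑ q, ∑ l ∈ B, ∑ k ∈ B, F p q l k
        = ∑ l ∈ B, ∑ k ∈ B, ∑ p, ∑ q, F p q l k := by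
      intro F
      have e1 : ∀ p, ∑ q, ∑ l ∈ B, ∑ k ∈ B, F p q l k = ∑ l ∈ B, ∑ k ∈ B, ∑ q, F p q l k := by
        intro p
        rw [Finset.sum_comm]
        refine Finset.sum_congr rfl fun l _ => ?_
        rw [Finset.sum_comm]
      rw [Finset.sum_congr rfl fun p _ => e1 p, Finset.sum_comm]
      refine Finset.sum_congr rfl fun l _ => ?_
      rw [Finset.sum_comm]
    rw [h7, Complex.ofReal_sum]
    refine Finset.sum_congr rfl fun l _ => ?_
    rw [Complex.ofReal_sum]
    refine Finset.sum_congr rfl fun k _ => ?_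
    have h8 : ∀ n, ∑ p, ∑ q, X (fun i => z p i * conj (z q i)) n *
        conj (X (fun i => z p i * conj (z q i)) l) = ((S (n - l) : ℝ) : ℂ) := fun n =>
      sum_pairs z hz n l
    simp only [← Finset.mul_sum]
    rw [Complex.ofReal_mul, Complex.ofReal_mul]
    congr 1
    rw [Complex.ofReal_sub, Complex.ofReal_mul, ← h8 k, Complex.ofReal_sum]
    simp only [Finset.sum_sub_distrib]
    congr 1
    · have e2 : ∀ F : P → P → ι → ℤ → ℂ, ∑ p, ∑ q, ∑ i, ∑ j ∈ J, F p q i j
          = ∑ i, ∑ j ∈ J, ∑ p, ∑ q, F p q i j := by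
        intro F
        have e1 : ∀ p, ∑ q, ∑ i, ∑ j ∈ J, F p q i j = ∑ i, ∑ j ∈ J, ∑ q, F p q i j := by
          intro p
          rw [Finset.sum_comm]
          refine Finset.sum_congr rfl fun i _ => ?_
          rw [Finset.sum_comm]
        rw [Finset.sum_congr rfl fun p _ => e1 p, Finset.sum_comm]
        refine Finset.sum_congr rfl fun i _ => ?_
        rw [Finset.sum_comm]
      rw [e2]
      refine Finset.sum_congr rfl fun i _ => ?_
      rw [Complex.ofReal_sum]
      refine Finset.sum_congr rfl fun j _ => ?_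
      have h9 := h8 (k + (Pi.single i j : ι → ℤ))
      rw [Complex.ofReal_mul, ← h9, Finset.mul_sum]
      refine Finset.sum_congr rfl fun p _ => ?_
      rw [Finset.mul_sum]
    · rw [Finset.mul_sum]
      refine Finset.sum_congr rfl fun p _ => ?_
      rw [Finset.mul_sum]
  rw [hR]
  -- drop the terms outside `B`
  have hdrop : ∀ l k, (∑ n ∈ B, mw r L (n - k) * S (n - l))
      ≤ ∑ i, ∑ j ∈ J, wt r L j * S (k + Pi.single i j - l) := by
    intro l k
    have h1 : (∑ n ∈ B, mw r L (n - k) * S (n - l))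
        = ∑ i, ∑ j ∈ J, ∑ n ∈ B, (if Pi.single i j = n - k then wt r L j else 0) * S (n - l) := by
      have e1 : ∀ n ∈ B, mw r L (n - k) * S (n - l)
          = ∑ i, ∑ j ∈ J, (if Pi.single i j = n - k then wt r L j else 0) * S (n - l) := by
        intro n _
        rw [mw_eq, Finset.sum_mul]
        refine Finset.sum_congr rfl fun i _ => ?_
        rw [Finset.sum_mul]
      rw [Finset.sum_congr rfl e1, Finset.sum_comm]
      refine Finset.sum_congr rfl fun i _ => ?_
      rw [Finset.sum_comm]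
    rw [h1]
    refine Finset.sum_le_sum fun i _ => Finset.sum_le_sum fun j _ => ?_
    have h2 : ∀ n : ι → ℤ, (Pi.single i j = n - k) ↔ n = k + Pi.single i j := by
      intro n
      constructor
      · intro h
        rw [h]
        abel
      · intro h
        rw [h]
        abel
    have h3 : ∀ n ∈ B, (if Pi.single i j = n - k then wt r L j else 0) * S (n - l)
        = if n = k + Pi.single i j then wt r L j * S (n - l) else 0 := by
      intro n _
      by_cases h : n = k + Pi.single i j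
      · rw [if_pos h, if_pos ((h2 n).2 h)]
      · rw [if_neg h, if_neg (fun h' => h ((h2 n).1 h')), zero_mul]
    rw [Finset.sum_congr rfl h3, Finset.sum_ite_eq']
    split_ifs
    · exact le_rfl
    · exact mul_nonneg (wt_nonneg hr L j) (hS0 _)
  have hlow : ∑ l ∈ B, ∑ k ∈ B, v l * v k *
      ((∑ n ∈ B, mw r L (n - k) * S (n - l)) - lam * S (k - l))
      ≤ ∑ l ∈ B, ∑ k ∈ B, v l * v k *
          ((∑ i, ∑ j ∈ J, wt r L j * S (k + Pi.single i j - l)) - lam * S (k - l)) := by
    refine Finset.sum_le_sum fun l _ => Finset.sum_le_sum fun k _ => ?_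
    refine mul_le_mul_of_nonneg_left ?_ (mul_nonneg (hv l) (hv k))
    linarith [hdrop l k]
  refine le_trans ?_ hlow
  have heq : ∑ l ∈ B, ∑ k ∈ B, v l * v k *
      ((∑ n ∈ B, mw r L (n - k) * S (n - l)) - lam * S (k - l))
      = (Λ - lam) * ∑ l ∈ B, ∑ n ∈ B, v l * v n * S (n - l) := by
    rw [Finset.mul_sum]
    refine Finset.sum_congr rfl fun l _ => ?_
    have h1 : ∑ k ∈ B, v l * v k * ((∑ n ∈ B, mw r L (n - k) * S (n - l)) - lam * S (k - l))
        = v l * (∑ k ∈ B, ∑ n ∈ B, mw r L (n - k) * v k * S (n - l)) -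
          lam * ∑ n ∈ B, v l * v n * S (n - l) := by
      rw [Finset.mul_sum, Finset.mul_sum, ← Finset.sum_sub_distrib]
      refine Finset.sum_congr rfl fun k _ => ?_
      have h2 : ∑ n ∈ B, mw r L (n - k) * v k * S (n - l)
          = v k * ∑ n ∈ B, mw r L (n - k) * S (n - l) := by
        rw [Finset.mul_sum]
        refine Finset.sum_congr rfl fun n _ => ?_
        ring
      rw [h2]
      ring
    have h3 : ∑ k ∈ B, ∑ n ∈ B, mw r L (n - k) * v k * S (n - l)
        = ∑ n ∈ B, Λ * v n * S (n - l) := by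
      rw [Finset.sum_comm]
      refine Finset.sum_congr rfl fun n hn => ?_
      rw [← hM n hn, Finset.sum_mul]
    have h4 : v l * ∑ n ∈ B, Λ * v n * S (n - l) = Λ * ∑ n ∈ B, v l * v n * S (n - l) := by
      rw [Finset.mul_sum, Finset.mul_sum]
      refine Finset.sum_congr rfl fun n _ => ?_
      ring
    rw [h1, h3, h4, sub_mul]
  rw [heq, mul_assoc]
  refine mul_le_mul_of_nonneg_left ?_ (by linarith)
  rw [Finset.mul_sum]
  refine Finset.sum_le_sum fun l hl => ?_
  have h1 : (Fintype.card P : ℝ) ^ 2 * v l ^ 2 = v l * v l * S (l - l) := by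
    rw [sub_self, hS1]
    ring
  rw [h1]
  exact Finset.single_le_sum (f := fun n => v l * v n * S (n - l))
    (fun n _ => mul_nonneg (mul_nonneg (hv l) (hv n)) (hS0 _)) hl

end Pool.Agent.H46.PF
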