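import Pool.Agent.H46.PF.Defs

/-!
# Module NSU: the sums for the sequence `aa`

`aa 0 = 1`, `aa (± k) = 1/(5 k)`. Split `Icc (-K) K` into `0`, the `k = j + 1` and the `-(j + 1)`, `j < K` (induction on
`K`, or `Finset.sum_int_Icc...`: `Icc (-(K+1)) (K+1) = {-(K+1), K+1} ∪ Icc (-K) K`).
* `aa_WW`: `- log (1/(25 k^2)) = 2 (log 5 + log k)`.
* `aa_EE`: all terms are nonnegative and `wt r L j ≥ r^(2K) / (2 |j|)` for `0 < |j| ≤ 2K ≤ L`, `0 < r ≤ 1`. So the
  numerator of `EE` is at least `r^(2K)` times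
  `∑_{j ≠ l} aa j aa l /(2 |j - l|)` which is `(2/5) ∑ 1/k^2` (pairs with a zero), plus
  `(1/25) ∑_{k ≠ l} 1/(k l |k - l|)` (same sign) `= (2/25) ∑_{k, j ≥ 1, k + j ≤ K} 1/(k j (k + j))`, plus
  `(1/25) ∑_{k, l ≤ K} 1/(k l (k + l))` (opposite signs).
-/

open Real Finset

namespace Pool.Agent.H46.PF

/-- `1/(k l (k + l))` with `k = p.1 + 1`, `l = p.2 + 1` -/
noncomputable def ee (p : ℕ × ℕ) : ℝ := 1 / (((p.1 : ℝ) + 1) * (p.2 + 1) * (p.1 + p.2 + 2))

/-- splitting a symmetric interval -/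
theorem sum_symm (f : ℤ → ℝ) (K : ℕ) : ∑ j ∈ Finset.Icc (-(K : ℤ)) K, f j =
    f 0 + ∑ k ∈ Finset.range K, (f ((k : ℤ) + 1) + f (-((k : ℤ) + 1))) := by
  induction K with
  | zero => simp
  | succ K ih =>
    have h : Finset.Icc (-((K + 1 : ℕ) : ℤ)) ((K + 1 : ℕ) : ℤ) =
        insert ((K : ℤ) + 1) (insert (-((K : ℤ) + 1)) (Finset.Icc (-(K : ℤ)) K)) := by
      ext x
      simp only [Finset.mem_Icc, Finset.mem_insert]
      push_cast
      omega
    rw [h, Finset.sum_insert, Finset.sum_insert, ih, Finset.sum_range_succ]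
    · ring
    · simp only [Finset.mem_Icc]
      omega
    · simp only [Finset.mem_Icc, Finset.mem_insert]
      omega

theorem aa_zero : aa 0 = 1 := by simp [aa]

theorem aa_pos_arg (k : ℕ) : aa ((k : ℤ) + 1) = 1 / (5 * ((k : ℝ) + 1)) := by
  have h : (k : ℤ) + 1 ≠ 0 := by omega
  have h2 : (0 : ℝ) < (k : ℝ) + 1 := by positivity
  simp only [aa, h, if_false]
  push_cast
  rw [abs_of_pos h2]

theorem aa_neg_arg (k : ℕ) : aa (-((k : ℤ) + 1)) = 1 / (5 * ((k : ℝ) + 1)) := by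
  have h : -((k : ℤ) + 1) ≠ 0 := by omega
  have h2 : (0 : ℝ) < (k : ℝ) + 1 := by positivity
  simp only [aa, h, if_false]
  push_cast
  rw [abs_neg, abs_of_pos h2]

theorem aa_Z1 (K : ℕ) : Z1 aa K = 1 + 2 / 25 * ∑ k ∈ Finset.range K, 1 / ((k : ℝ) + 1) ^ 2 := by
  rw [Z1, sum_symm, aa_zero, Finset.mul_sum]
  congr 1
  · norm_num
  · refine Finset.sum_congr rfl fun k _ => ?_
    rw [aa_pos_arg, aa_neg_arg]
    have h2 : (0 : ℝ) < (k : ℝ) + 1 := by positivity
    field_simp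
    ring

theorem aa_WW (K : ℕ) : WW aa K = 4 / 25 * (log 5 * ∑ k ∈ Finset.range K, 1 / ((k : ℝ) + 1) ^ 2
    + ∑ k ∈ Finset.range K, log ((k : ℝ) + 1) / ((k : ℝ) + 1) ^ 2) := by
  rw [WW, sum_symm, aa_zero, Finset.mul_sum, ← Finset.sum_add_distrib, Finset.mul_sum]
  have h0 : (1 : ℝ) ^ 2 * -log (1 ^ 2) = 0 := by simp
  rw [h0, zero_add]
  refine Finset.sum_congr rfl fun k _ => ?_
  rw [aa_pos_arg, aa_neg_arg]
  have h2 : (0 : ℝ) < (k : ℝ) + 1 := by positivity
  have hl : log ((1 / (5 * ((k : ℝ) + 1))) ^ 2) = -(2 * (log 5 + log ((k : ℝ) + 1))) := by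
    rw [Real.log_pow, one_div, Real.log_inv, Real.log_mul (by norm_num) h2.ne']
    push_cast
    ring
  rw [hl]
  field_simp
  ring

theorem nsu_aa_pos (j : ℤ) : 0 < aa j := by
  unfold aa
  split_ifs with h
  · norm_num
  · have : (j : ℝ) ≠ 0 := by exact_mod_cast h
    positivity

theorem nsu_wt_nonneg {r : ℝ} (hr : 0 < r) (L : ℕ) (j : ℤ) : 0 ≤ wt r L j := by
  unfold wt
  split_ifs with h
  · positivity
  · exact le_rfl

theorem wt_lower {K L : ℕ} (hL : 2 * K ≤ L) {r : ℝ} (hr : 0 < r) (hr1 : r ≤ 1) {j : ℤ} {n : ℕ}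
    (hn : 0 < n) (hnK : n ≤ 2 * K) (hj : j.natAbs = n) :
    r ^ (2 * K) / (2 * n) ≤ wt r L j := by
  unfold wt
  have h1 : j ≠ 0 := by omega
  have h2 : j.natAbs ≤ L := by omega
  rw [if_pos ⟨h1, h2⟩, hj]
  have h3 : (0 : ℝ) < n := by exact_mod_cast hn
  have h4 : r ^ (2 * K) ≤ r ^ n := pow_le_pow_of_le_one hr.le hr1 hnK
  gcongr

theorem aa_EE {K L : ℕ} (hL : 2 * K ≤ L) {r : ℝ} (hr : 0 < r) (hr1 : r ≤ 1) :
    r ^ (2 * K) * (2 / 5 * ∑ k ∈ Finset.range K, 1 / ((k : ℝ) + 1) ^ 2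
      + 2 / 25 * ∑ p ∈ (Finset.range K ×ˢ Finset.range K).filter (fun p => p.1 + p.2 + 2 ≤ K), ee p
      + 1 / 25 * ∑ p ∈ Finset.range K ×ˢ Finset.range K, ee p) ≤ EE aa K r L * Z1 aa K := by
  have hZ : Z1 aa K ≠ 0 := by
    rw [aa_Z1]
    have : 0 ≤ ∑ k ∈ Finset.range K, 1 / ((k : ℝ) + 1) ^ 2 :=
      Finset.sum_nonneg fun k _ => by positivity
    positivity
  rw [EE, div_mul_cancel₀ _ hZ]
  set f : ℤ → ℤ → ℝ := fun j l => aa j * aa l * wt r L (j - l) with hf
  have hf0 : ∀ j l, 0 ≤ f j l := fun j l =>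
    mul_nonneg (mul_nonneg (nsu_aa_pos j).le (nsu_aa_pos l).le) (nsu_wt_nonneg hr L _)
  have hR : 0 < r ^ (2 * K) := by positivity
  set R := r ^ (2 * K) with hRdef
  have hsplit : ∑ j ∈ Finset.Icc (-(K : ℤ)) K, ∑ l ∈ Finset.Icc (-(K : ℤ)) K, f j l =
      f 0 0 + ∑ k ∈ Finset.range K, (f 0 ((k : ℤ) + 1) + f 0 (-((k : ℤ) + 1))) +
      ∑ k ∈ Finset.range K, (f ((k : ℤ) + 1) 0 + f (-((k : ℤ) + 1)) 0) +
      (∑ p ∈ Finset.range K ×ˢ Finset.range K, (f ((p.1 : ℤ) + 1) ((p.2 : ℤ) + 1) +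
        f (-((p.1 : ℤ) + 1)) (-((p.2 : ℤ) + 1)))) +
      (∑ p ∈ Finset.range K ×ˢ Finset.range K, (f ((p.1 : ℤ) + 1) (-((p.2 : ℤ) + 1)) +
        f (-((p.1 : ℤ) + 1)) ((p.2 : ℤ) + 1))) := by
    rw [sum_symm (fun j => ∑ l ∈ Finset.Icc (-(K : ℤ)) K, f j l)]
    simp only [sum_symm, Finset.sum_product, Finset.sum_add_distrib]
    ring
  -- the pairs with a zero
  have hA : R * (2 / 5 * ∑ k ∈ Finset.range K, 1 / ((k : ℝ) + 1) ^ 2) ≤
      ∑ k ∈ Finset.range K, (f 0 ((k : ℤ) + 1) + f 0 (-((k : ℤ) + 1))) +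
      ∑ k ∈ Finset.range K, (f ((k : ℤ) + 1) 0 + f (-((k : ℤ) + 1)) 0) := by
    rw [← Finset.sum_add_distrib, Finset.mul_sum, Finset.mul_sum]
    refine Finset.sum_le_sum fun k hk => ?_
    rw [Finset.mem_range] at hk
    have hk0 : (0 : ℝ) < (k : ℝ) + 1 := by positivity
    have w1 := wt_lower hL hr hr1 (j := 0 - ((k : ℤ) + 1)) (n := k + 1) (by omega) (by omega) (by omega)
    have w2 := wt_lower hL hr hr1 (j := 0 - (-((k : ℤ) + 1))) (n := k + 1) (by omega) (by omega) (by omega)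
    have w3 := wt_lower hL hr hr1 (j := ((k : ℤ) + 1) - 0) (n := k + 1) (by omega) (by omega) (by omega)
    have w4 := wt_lower hL hr hr1 (j := (-((k : ℤ) + 1)) - 0) (n := k + 1) (by omega) (by omega) (by omega)
    simp only [hf, aa_zero, aa_pos_arg, aa_neg_arg]
    rw [← hRdef] at w1 w2 w3 w4
    push_cast at w1 w2 w3 w4
    have e : R * (2 / 5 * (1 / ((k : ℝ) + 1) ^ 2)) =
        1 / (5 * ((k : ℝ) + 1)) * (R / (2 * ((k : ℝ) + 1)) + R / (2 * ((k : ℝ) + 1)) +
        R / (2 * ((k : ℝ) + 1)) + R / (2 * ((k : ℝ) + 1))) := by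
      field_simp
      ring
    rw [e]
    have hp : 0 < 1 / (5 * ((k : ℝ) + 1)) := by positivity
    have := mul_le_mul_of_nonneg_left (add_le_add (add_le_add (add_le_add w1 w2) w3) w4) hp.le
    linarith
  -- opposite signs
  have hB : R * (1 / 25 * ∑ p ∈ Finset.range K ×ˢ Finset.range K, ee p) ≤
      ∑ p ∈ Finset.range K ×ˢ Finset.range K, (f ((p.1 : ℤ) + 1) (-((p.2 : ℤ) + 1)) +
        f (-((p.1 : ℤ) + 1)) ((p.2 : ℤ) + 1)) := by
    rw [Finset.mul_sum, Finset.mul_sum]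
    refine Finset.sum_le_sum fun p hp => ?_
    obtain ⟨j, k⟩ := p
    simp only [Finset.mem_product, Finset.mem_range] at hp
    obtain ⟨hj, hk⟩ := hp
    have w1 := wt_lower hL hr hr1 (j := ((j : ℤ) + 1) - (-((k : ℤ) + 1))) (n := j + k + 2)
      (by omega) (by omega) (by omega)
    have w2 := wt_lower hL hr hr1 (j := (-((j : ℤ) + 1)) - ((k : ℤ) + 1)) (n := j + k + 2)
      (by omega) (by omega) (by omega)
    rw [← hRdef] at w1 w2
    push_cast at w1 w2
    simp only [hf, aa_pos_arg, aa_neg_arg, ee]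
    have hj0 : (0 : ℝ) < (j : ℝ) + 1 := by positivity
    have hk0 : (0 : ℝ) < (k : ℝ) + 1 := by positivity
    have hjk0 : (0 : ℝ) < (j : ℝ) + k + 2 := by positivity
    have e : R * (1 / 25 * (1 / (((j : ℝ) + 1) * (k + 1) * (j + k + 2)))) =
        1 / (5 * ((j : ℝ) + 1)) * (1 / (5 * ((k : ℝ) + 1))) *
        (R / (2 * ((j : ℝ) + k + 2)) + R / (2 * ((j : ℝ) + k + 2))) := by
      field_simp
      ring
    rw [e]
    have hp : 0 < 1 / (5 * ((j : ℝ) + 1)) * (1 / (5 * ((k : ℝ) + 1))) := by positivity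
    have := mul_le_mul_of_nonneg_left (add_le_add w1 w2) hp.le
    linarith
  -- same sign
  have hC : R * (2 / 25 * ∑ p ∈ (Finset.range K ×ˢ Finset.range K).filter
      (fun p => p.1 + p.2 + 2 ≤ K), ee p) ≤
      ∑ p ∈ Finset.range K ×ˢ Finset.range K, (f ((p.1 : ℤ) + 1) ((p.2 : ℤ) + 1) +
        f (-((p.1 : ℤ) + 1)) (-((p.2 : ℤ) + 1))) := by
    set G : ℕ × ℕ → ℝ := fun p => f ((p.1 : ℤ) + 1) ((p.2 : ℤ) + 1) +
        f (-((p.1 : ℤ) + 1)) (-((p.2 : ℤ) + 1)) with hG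
    have hG0 : ∀ p, 0 ≤ G p := fun p => add_nonneg (hf0 _ _) (hf0 _ _)
    have s1 : ∑ p ∈ (Finset.range K ×ˢ Finset.range K).filter (fun p => p.1 < p.2), G p +
        ∑ p ∈ (Finset.range K ×ˢ Finset.range K).filter (fun p => p.2 < p.1), G p ≤
        ∑ p ∈ Finset.range K ×ˢ Finset.range K, G p := by
      rw [← Finset.sum_union]
      · refine Finset.sum_le_sum_of_subset_of_nonneg ?_ fun p _ _ => hG0 p
        intro p hp
        rw [Finset.mem_union, Finset.mem_filter, Finset.mem_filter] at hp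
        tauto
      · rw [Finset.disjoint_left]
        intro p h1 h2
        rw [Finset.mem_filter] at h1 h2
        omega
    have s2 : ∑ p ∈ (Finset.range K ×ˢ Finset.range K).filter (fun p => p.1 < p.2), G p =
        ∑ p ∈ (Finset.range K ×ˢ Finset.range K).filter (fun p => p.1 + p.2 + 2 ≤ K),
          G (p.1, p.1 + p.2 + 1) := by
      refine Finset.sum_nbij' (fun p => (p.1, p.2 - p.1 - 1)) (fun p => (p.1, p.1 + p.2 + 1))
        ?_ ?_ ?_ ?_ ?_
      · intro p hp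
        simp only [Finset.mem_filter, Finset.mem_product, Finset.mem_range] at hp ⊢
        omega
      · intro p hp
        simp only [Finset.mem_filter, Finset.mem_product, Finset.mem_range] at hp ⊢
        omega
      · intro p hp
        simp only [Finset.mem_filter, Finset.mem_product, Finset.mem_range] at hp
        ext
        · rfl
        · simp only
          omega
      · intro p hp
        ext
        · rfl
        · simp only
          omega
      · intro p hp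
        simp only [Finset.mem_filter, Finset.mem_product, Finset.mem_range] at hp
        have : p.1 + (p.2 - p.1 - 1) + 1 = p.2 := by omega
        simp only [this]
    have s3 : ∑ p ∈ (Finset.range K ×ˢ Finset.range K).filter (fun p => p.2 < p.1), G p =
        ∑ p ∈ (Finset.range K ×ˢ Finset.range K).filter (fun p => p.1 + p.2 + 2 ≤ K),
          G (p.1 + p.2 + 1, p.1) := by
      refine Finset.sum_nbij' (fun p => (p.2, p.1 - p.2 - 1)) (fun p => (p.1 + p.2 + 1, p.1))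
        ?_ ?_ ?_ ?_ ?_
      · intro p hp
        simp only [Finset.mem_filter, Finset.mem_product, Finset.mem_range] at hp ⊢
        omega
      · intro p hp
        simp only [Finset.mem_filter, Finset.mem_product, Finset.mem_range] at hp ⊢
        omega
      · intro p hp
        simp only [Finset.mem_filter, Finset.mem_product, Finset.mem_range] at hp
        ext
        · simp only
          omega
        · rfl
      · intro p hp
        ext
        · rfl
        · simp only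
          omega
      · intro p hp
        simp only [Finset.mem_filter, Finset.mem_product, Finset.mem_range] at hp
        have : p.2 + (p.1 - p.2 - 1) + 1 = p.1 := by omega
        simp only [this]
    refine le_trans ?_ s1
    rw [s2, s3, ← Finset.sum_add_distrib, Finset.mul_sum, Finset.mul_sum]
    refine Finset.sum_le_sum fun p hp => ?_
    obtain ⟨j, m⟩ := p
    simp only [Finset.mem_filter, Finset.mem_product, Finset.mem_range] at hp
    obtain ⟨⟨hj, hm⟩, hjm⟩ := hp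
    simp only [hG]
    push_cast
    have w1 := wt_lower hL hr hr1 (j := ((j : ℤ) + 1) - ((j : ℤ) + m + 1 + 1)) (n := m + 1)
      (by omega) (by omega) (by omega)
    have w2 := wt_lower hL hr hr1 (j := (-((j : ℤ) + 1)) - (-((j : ℤ) + m + 1 + 1))) (n := m + 1)
      (by omega) (by omega) (by omega)
    have w3 := wt_lower hL hr hr1 (j := ((j : ℤ) + m + 1 + 1) - ((j : ℤ) + 1)) (n := m + 1)
      (by omega) (by omega) (by omega)
    have w4 := wt_lower hL hr hr1 (j := (-((j : ℤ) + m + 1 + 1)) - (-((j : ℤ) + 1))) (n := m + 1)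
      (by omega) (by omega) (by omega)
    rw [← hRdef] at w1 w2 w3 w4
    push_cast at w1 w2 w3 w4
    have a1 : aa ((j : ℤ) + m + 1 + 1) = 1 / (5 * ((j : ℝ) + m + 1 + 1)) := by
      have := aa_pos_arg (j + m + 1)
      push_cast at this
      exact this
    have a2 : aa (-((j : ℤ) + m + 1 + 1)) = 1 / (5 * ((j : ℝ) + m + 1 + 1)) := by
      have := aa_neg_arg (j + m + 1)
      push_cast at this
      exact this
    simp only [hf, aa_pos_arg, aa_neg_arg, ee, a1, a2]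
    have hj0 : (0 : ℝ) < (j : ℝ) + 1 := by positivity
    have hk0 : (0 : ℝ) < (m : ℝ) + 1 := by positivity
    have hjk0 : (0 : ℝ) < (j : ℝ) + m + 2 := by positivity
    have hjk1 : (j : ℝ) + m + 1 + 1 = (j : ℝ) + m + 2 := by ring
    have e : R * (2 / 25 * (1 / (((j : ℝ) + 1) * (m + 1) * (j + m + 2)))) =
        1 / (5 * ((j : ℝ) + 1)) * (1 / (5 * ((j : ℝ) + m + 1 + 1))) *
        (R / (2 * ((m : ℝ) + 1)) + R / (2 * ((m : ℝ) + 1)) +
        R / (2 * ((m : ℝ) + 1)) + R / (2 * ((m : ℝ) + 1))) := by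
      rw [hjk1]
      field_simp
      ring
    rw [e]
    have hp : 0 < 1 / (5 * ((j : ℝ) + 1)) * (1 / (5 * ((j : ℝ) + m + 1 + 1))) := by positivity
    have := mul_le_mul_of_nonneg_left (add_le_add (add_le_add (add_le_add w1 w2) w3) w4) hp.le
    linarith
  rw [hsplit]
  have := hf0 0 0
  linarith

end Pool.Agent.H46.PF
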