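import Pool.Agent.H46.PF.Chernoff

/-!
# Module QUAD: the quadratic form of the product vector

* `row`: for `n` in the box, `∑_{k ∈ box} mw (n - k) xx k = ∑ i, (∑_{l} wt (n i - l) a l) ∏_{i' ≠ i} a (n i')`:
  by definition of `mw` the left side is `∑ i, ∑_{k ∈ box, k i' = n i' for i' ≠ i} wt (n i - k i) xx k`, and these
  `k` are the `Function.update n i l`, `l ∈ [-K, K]`.
* `quad_total`: multiply by `xx n` and sum over the box:
  `∑ i, ∑_n (a (n i) ∑_l wt (n i - l) a l) ∏_{i' ≠ i} a (n i')^2 = d (∑_{j,l} a j a l wt (j - l)) Z1^(d-1)`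
  (for each `i` a product over the coordinates, `Finset.prod_univ_sum`).
-/

open Real Finset

namespace Pool.Agent.H46.PF

theorem row_one {K d : ℕ} (a : ℤ → ℝ) (r : ℝ) (L : ℕ) {n : Fin d → ℤ} (hn : n ∈ box K d)
    (i : Fin d) :
    ∑ k ∈ box K d, (if ∀ i', i' ≠ i → (n - k) i' = 0 then wt r L ((n - k) i) else 0) * xx a k =
      (∑ l ∈ Finset.Icc (-(K : ℤ)) K, wt r L (n i - l) * a l) *
        ∏ i' ∈ Finset.univ.erase i, a (n i') := by
  classical
  have hn' : ∀ i, n i ∈ Finset.Icc (-(K : ℤ)) K := by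
    unfold box at hn
    rwa [Fintype.mem_piFinset] at hn
  have h1 : ∀ k ∈ box K d,
      (if ∀ i', i' ≠ i → (n - k) i' = 0 then wt r L ((n - k) i) else 0) * xx a k =
      if ∀ i', i' ≠ i → k i' = n i' then wt r L (n i - k i) * xx a k else 0 := by
    intro k _
    have h2 : (∀ i', i' ≠ i → (n - k) i' = 0) ↔ ∀ i', i' ≠ i → k i' = n i' := by
      refine forall_congr' fun i' => forall_congr' fun _ => ?_
      rw [Pi.sub_apply, sub_eq_zero, eq_comm]
    by_cases h : ∀ i', i' ≠ i → k i' = n i'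
    · rw [if_pos (h2.mpr h), if_pos h, Pi.sub_apply]
    · rw [if_neg (fun hh => h (h2.mp hh)), if_neg h, zero_mul]
  rw [Finset.sum_congr rfl h1, ← Finset.sum_filter, Finset.sum_mul]
  refine Finset.sum_bij' (fun k _ => k i) (fun l _ => Function.update n i l) ?_ ?_ ?_ ?_ ?_
  · intro k hk
    have := (Finset.mem_filter.mp hk).1
    unfold box at this
    rw [Fintype.mem_piFinset] at this
    exact this i
  · intro l hl
    rw [Finset.mem_filter]
    refine ⟨?_, fun i' hi' => Function.update_of_ne hi' _ _⟩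
    unfold box
    rw [Fintype.mem_piFinset]
    intro i'
    by_cases h : i' = i
    · subst h
      rw [Function.update_self]
      exact hl
    · rw [Function.update_of_ne h]
      exact hn' i'
  · intro k hk
    have h3 := (Finset.mem_filter.mp hk).2
    funext i'
    by_cases h : i' = i
    · subst h
      rw [Function.update_self]
    · rw [Function.update_of_ne h]
      exact (h3 i' h).symm
  · intro l hl
    simp
  · intro k hk
    have h3 := (Finset.mem_filter.mp hk).2
    unfold xx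
    rw [← Finset.mul_prod_erase Finset.univ (fun i => a (k i)) (Finset.mem_univ i)]
    have h4 : ∏ x ∈ Finset.univ.erase i, a (k x) = ∏ i' ∈ Finset.univ.erase i, a (n i') :=
      Finset.prod_congr rfl fun x hx => by rw [h3 x (Finset.ne_of_mem_erase hx)]
    rw [h4]
    ring

theorem row {K d : ℕ} (a : ℤ → ℝ) (r : ℝ) (L : ℕ) {n : Fin d → ℤ} (hn : n ∈ box K d) :
    ∑ k ∈ box K d, mw r L (n - k) * xx a k =
      ∑ i, (∑ l ∈ Finset.Icc (-(K : ℤ)) K, wt r L (n i - l) * a l) * ∏ i' ∈ Finset.univ.erase i, a (n i') := by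
  have h1 : ∀ k ∈ box K d, mw r L (n - k) * xx a k =
      ∑ i, (if ∀ i', i' ≠ i → (n - k) i' = 0 then wt r L ((n - k) i) else 0) * xx a k := by
    intro k _
    unfold mw
    rw [Finset.sum_mul]
    refine Finset.sum_congr rfl fun i _ => ?_
    congr!
  rw [Finset.sum_congr rfl h1, Finset.sum_comm]
  exact Finset.sum_congr rfl fun i _ => row_one a r L hn i

theorem quad_total {K : ℕ} (a : ℤ → ℝ) (r : ℝ) (L : ℕ) {d : ℕ} (hZ : Z1 a K ≠ 0) :
    ∑ n ∈ box K d, ∑ k ∈ box K d, xx a n * mw r L (n - k) * xx a k = d * EE a K r L * Z1 a K ^ d := by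
  classical
  have h1 : ∀ n ∈ box K d, ∑ k ∈ box K d, xx a n * mw r L (n - k) * xx a k =
      ∑ i, ∏ i', (if i' = i then
        a (n i') * ∑ l ∈ Finset.Icc (-(K : ℤ)) K, wt r L (n i' - l) * a l else a (n i') ^ 2) := by
    intro n hn
    have h2 : ∑ k ∈ box K d, xx a n * mw r L (n - k) * xx a k =
        xx a n * ∑ k ∈ box K d, mw r L (n - k) * xx a k := by
      rw [Finset.mul_sum]
      exact Finset.sum_congr rfl fun k _ => by ring
    rw [h2, row a r L hn, Finset.mul_sum]
    refine Finset.sum_congr rfl fun i _ => ?_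
    rw [← Finset.mul_prod_erase Finset.univ _ (Finset.mem_univ i), if_pos rfl]
    have h3 : ∏ x ∈ Finset.univ.erase i, (if x = i then
        a (n x) * ∑ l ∈ Finset.Icc (-(K : ℤ)) K, wt r L (n x - l) * a l else a (n x) ^ 2) =
        ∏ x ∈ Finset.univ.erase i, a (n x) ^ 2 :=
      Finset.prod_congr rfl fun x hx => by rw [if_neg (Finset.ne_of_mem_erase hx)]
    rw [h3, Finset.prod_pow]
    unfold xx
    rw [← Finset.mul_prod_erase Finset.univ (fun i => a (n i)) (Finset.mem_univ i)]
    ring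
  rw [Finset.sum_congr rfl h1, Finset.sum_comm]
  have h4 : ∀ i ∈ (Finset.univ : Finset (Fin d)), ∑ n ∈ box K d, ∏ i', (if i' = i then
        a (n i') * ∑ l ∈ Finset.Icc (-(K : ℤ)) K, wt r L (n i' - l) * a l else a (n i') ^ 2) =
      EE a K r L * Z1 a K ^ d := by
    intro i _
    unfold box
    have h5 := Finset.prod_univ_sum (fun _ : Fin d => Finset.Icc (-(K : ℤ)) K)
      (fun i' j => if i' = i then
        a j * ∑ l ∈ Finset.Icc (-(K : ℤ)) K, wt r L (j - l) * a l else a j ^ 2)
    rw [← h5, ← Finset.mul_prod_erase Finset.univ _ (Finset.mem_univ i)]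
    have h6 : ∏ x ∈ Finset.univ.erase i, ∑ j ∈ Finset.Icc (-(K : ℤ)) K, (if x = i then
        a j * ∑ l ∈ Finset.Icc (-(K : ℤ)) K, wt r L (j - l) * a l else a j ^ 2) =
        ∏ x ∈ Finset.univ.erase i, Z1 a K :=
      Finset.prod_congr rfl fun x hx => by
        unfold Z1
        exact Finset.sum_congr rfl fun j _ => by rw [if_neg (Finset.ne_of_mem_erase hx)]
    rw [h6, Finset.prod_const, Finset.card_erase_of_mem (Finset.mem_univ i), Finset.card_univ,
      Fintype.card_fin]
    have h7 : ∑ j ∈ Finset.Icc (-(K : ℤ)) K, (if i = i then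
        a j * ∑ l ∈ Finset.Icc (-(K : ℤ)) K, wt r L (j - l) * a l else a j ^ 2) =
        EE a K r L * Z1 a K := by
      unfold EE
      rw [div_mul_cancel₀ _ hZ]
      refine Finset.sum_congr rfl fun j _ => ?_
      rw [if_pos rfl, Finset.mul_sum]
      exact Finset.sum_congr rfl fun l _ => by ring
    rw [h7]
    obtain ⟨e, he⟩ : ∃ e, d = e + 1 := ⟨d - 1, by have := i.2; omega⟩
    have he' : d - 1 = e := by omega
    rw [he', mul_assoc, ← pow_succ']
    congr 2
    exact he.symm
  rw [Finset.sum_congr rfl h4, Finset.sum_const, Finset.card_univ, Fintype.card_fin, nsmul_eq_mul]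
  ring

end Pool.Agent.H46.PF
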